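import Pool.Agent.X125.EQ.Mer

/-!
# The partial fraction expansion
-/

set_option autoImplicit false

open MeasureTheory Complex Filter Topology Set Metric
open scoped ComplexConjugate InnerProductSpace

namespace Pool.Agent.X125.EQ

/-- the sum over the zeros -/
noncomputable def T (E : ℂ) : ℂ := ∑' r : Z, (wt r : ℂ) / (r - E)

theorem lower (E0 : ℂ) : ∃ δ : ℝ, 0 < δ ∧ ∃ c : ℝ, 0 < c ∧ ∀ E ∈ ball E0 δ, ∀ r : Z,
    ((r : ℝ) : ℂ) ≠ E0 → c * r ≤ ‖((r : ℝ) : ℂ) - E‖ := by
  set R : ℝ := 2 * (‖E0‖ + 1) with hR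
  have hRpos : 0 < R := by positivity
  have hfin : ((fun r : ℝ => (r : ℂ)) '' {r : ℝ | r ∈ Z ∧ r ≤ R} \ {E0}).Finite :=
    ((Z_finite R).image _).subset sdiff_subset
  have hmem : E0 ∉ ((fun r : ℝ => (r : ℂ)) '' {r : ℝ | r ∈ Z ∧ r ≤ R} \ {E0}) := fun h => h.2 rfl
  obtain ⟨ε, hε, hball⟩ := Metric.mem_nhds_iff.1 (hfin.isClosed.isOpen_compl.mem_nhds hmem)
  refine ⟨min 1 (ε / 2), by positivity, min (1 / 2) (ε / (2 * R)), by positivity, ?_⟩
  intro E hE r hne
  rw [mem_ball, dist_eq_norm] at hE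
  have hE1 : ‖E - E0‖ < 1 := hE.trans_le (min_le_left _ _)
  have hE2 : ‖E - E0‖ < ε / 2 := hE.trans_le (min_le_right _ _)
  have hr := Z_pos r.2
  rcases le_or_gt (r : ℝ) R with h | h
  · have h1 : ε ≤ ‖((r : ℝ) : ℂ) - E0‖ := by
      by_contra hcon
      push Not at hcon
      have h2 : ((r : ℝ) : ℂ) ∈ ball E0 ε := by rw [mem_ball, dist_eq_norm]; exact hcon
      exact hball h2 ⟨⟨r, ⟨r.2, h⟩, rfl⟩, hne⟩
    have h2 : ‖((r : ℝ) : ℂ) - E0‖ ≤ ‖((r : ℝ) : ℂ) - E‖ + ‖E - E0‖ := by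
      have := norm_add_le (((r : ℝ) : ℂ) - E) (E - E0)
      simpa using this
    have h3 : min (1 / 2) (ε / (2 * R)) * r ≤ ε / (2 * R) * R :=
      mul_le_mul (min_le_right _ _) h hr.le (by positivity)
    have h4 : ε / (2 * R) * R = ε / 2 := by field_simp
    linarith
  · have h1 : (r : ℝ) ≤ ‖((r : ℝ) : ℂ) - E‖ + ‖E‖ := by
      have := norm_add_le (((r : ℝ) : ℂ) - E) E
      rwa [sub_add_cancel, Complex.norm_real, Real.norm_of_nonneg hr.le] at this
    have h2 : ‖E‖ ≤ ‖E0‖ + 1 := by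
      have := norm_add_le (E - E0) E0
      rw [sub_add_cancel] at this
      linarith
    have h3 : min (1 / 2) (ε / (2 * R)) * r ≤ 1 / 2 * r :=
      mul_le_mul_of_nonneg_right (min_le_left _ _) hr.le
    linarith

theorem term_bound {c δ : ℝ} (hc : 0 < c) {E : ℂ} {r : Z}
    (h : c * r ≤ ‖((r : ℝ) : ℂ) - E‖) (_ : 0 < δ) :
    ‖(wt r : ℂ) / (r - E)‖ ≤ (1 / c) * (wt r / r) := by
  have hr := Z_pos r.2
  have hw := wt_pos r.2
  rw [norm_div, Complex.norm_real, Real.norm_of_nonneg hw.le]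
  have h1 : 0 < c * r := by positivity
  calc wt r / ‖((r : ℝ) : ℂ) - E‖ ≤ wt r / (c * r) := div_le_div_of_nonneg_left hw.le h1 h
    _ = _ := by field_simp

theorem differentiableAt_T {E0 : ℂ} (h : D E0 ≠ 0) : DifferentiableAt ℂ T E0 := by
  obtain ⟨δ, hδ, c, hc, hb⟩ := lower E0
  have hne : ∀ r : Z, ((r : ℝ) : ℂ) ≠ E0 := by
    rintro r rfl
    exact h r.2
  have h1 : DifferentiableOn ℂ T (ball E0 δ) := by
    refine differentiableOn_tsum_of_summable_norm (summable_wt.mul_left (1 / c)) ?_ isOpen_ball ?_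
    · intro r E hE
      have h2 := hb E hE r (hne r)
      have h3 : ((r : ℝ) : ℂ) - E ≠ 0 := by
        intro h4
        rw [h4, norm_zero] at h2
        have := mul_pos hc (Z_pos r.2)
        linarith
      have h4 : DifferentiableAt ℂ (fun E : ℂ => (wt r : ℂ) / (r - E)) E := by
        have : DifferentiableAt ℂ (fun E : ℂ => ((r : ℝ) : ℂ) - E) E := by fun_prop
        exact (differentiableAt_const _).div this h3
      exact h4.differentiableWithinAt
    · intro r E hE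
      exact term_bound hc (hb E hE r (hne r)) hδ
  exact (h1 E0 (mem_ball_self hδ)).differentiableAt (ball_mem_nhds _ hδ)

theorem tendsto_T {r0 : ℝ} (h0 : r0 ∈ Z) :
    Tendsto (fun E : ℂ => (E - r0) * T E) (𝓝[≠] (r0 : ℂ)) (𝓝 (-(wt r0 : ℂ))) := by
  classical
  obtain ⟨δ, hδ, c, hc, hb⟩ := lower (r0 : ℂ)
  have hr0 := Z_pos h0
  have h1 : ∀ E : ℂ, (E - r0) * T E = ∑' r : Z, (E - r0) * ((wt r : ℂ) / (r - E)) := by
    intro E
    rw [T, tsum_mul_left]
  simp_rw [h1]
  have h2 : (-(wt r0 : ℂ)) = ∑' r : Z, if r = ⟨r0, h0⟩ then -(wt r0 : ℂ) else 0 := by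
    rw [tsum_ite_eq]
  rw [h2]
  refine tendsto_tsum_of_dominated_convergence
    (bound := fun r : Z => (max (δ * (1 / c)) r0) * (wt r / r)) (summable_wt.mul_left _) ?_ ?_
  · intro r
    split_ifs with hr
    · subst hr
      refine tendsto_const_nhds.congr' ?_
      filter_upwards [self_mem_nhdsWithin] with E hE
      have h3 : (r0 : ℂ) - E ≠ 0 := sub_ne_zero.2 fun h4 => hE h4.symm
      field_simp
      ring
    · have hne : ((r : ℝ) : ℂ) - r0 ≠ 0 := by
        rw [sub_ne_zero]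
        intro h3
        apply hr
        apply Subtype.ext
        exact_mod_cast h3
      have h3 : ContinuousAt (fun E : ℂ => (E - r0) * ((wt r : ℂ) / (r - E))) r0 := by
        have : ContinuousAt (fun E : ℂ => (wt r : ℂ) / (r - E)) r0 :=
          continuousAt_const.div (by fun_prop) hne
        exact (by fun_prop : ContinuousAt (fun E : ℂ => E - r0) r0).mul this
      have h4 := h3.tendsto
      simp only [sub_self, zero_mul] at h4
      exact h4.mono_left nhdsWithin_le_nhds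
  · filter_upwards [self_mem_nhdsWithin, mem_nhdsWithin_of_mem_nhds (ball_mem_nhds (r0 : ℂ) hδ)]
      with E hE1 hE2 r
    have hr := Z_pos r.2
    have hw := wt_pos r.2
    by_cases hrr : (r : ℝ) = r0
    · have h3 : E - r0 ≠ 0 := sub_ne_zero.2 hE1
      rw [norm_mul, norm_div, hrr, norm_sub_rev, Complex.norm_real, Real.norm_of_nonneg
        (by rw [← hrr]; exact hw.le), mul_div_cancel₀ _ (norm_ne_zero_iff.2 (by
          rw [← neg_sub]; exact neg_ne_zero.2 h3))]
      calc wt r0 = r0 * (wt r0 / r0) := by field_simp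
        _ ≤ _ := mul_le_mul_of_nonneg_right (le_max_right _ _)
            (div_nonneg (by rw [← hrr]; exact hw.le) hr0.le)
    · rw [norm_mul]
      rw [mem_ball, dist_eq_norm] at hE2
      have h3 := term_bound hc (hb E (by rw [mem_ball, dist_eq_norm]; exact hE2) r
        (by exact_mod_cast hrr)) hδ
      calc _ ≤ δ * (1 / c * (wt r / r)) := mul_le_mul hE2.le h3 (norm_nonneg _) hδ.le
        _ = δ * (1 / c) * (wt r / r) := by ring
        _ ≤ _ := mul_le_mul_of_nonneg_right (le_max_left _ _) (by positivity)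

/-- the difference -/
noncomputable def hh (E : ℂ) : ℂ := -(N E / D E) - T E

theorem differentiableAt_hh {E0 : ℂ} (h : D E0 ≠ 0) : DifferentiableAt ℂ hh E0 :=
  ((differentiable_N E0).div (differentiable_D E0) h).neg.sub (differentiableAt_T h)

theorem tendsto_hh {r0 : ℝ} (h0 : r0 ∈ Z) :
    Tendsto (fun E : ℂ => (E - r0) * hh E) (𝓝[≠] (r0 : ℂ)) (𝓝 0) := by
  have h1 := (tendsto_M h0).neg.sub (tendsto_T h0)
  have h2 : -((‖N r0‖ ^ 2 / S r0 : ℝ) : ℂ) - -(wt r0 : ℂ) = 0 := by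
    rw [wt]; ring
  rw [h2] at h1
  refine h1.congr fun E => ?_
  rw [hh]; ring

/-- the entire extension -/
noncomputable def H (E : ℂ) : ℂ := limUnder (𝓝[≠] E) hh

theorem H_eq {E : ℂ} (h : D E ≠ 0) : H E = hh E :=
  ((differentiableAt_hh h).continuousAt.tendsto.mono_left nhdsWithin_le_nhds).limUnder_eq

theorem isOpen_D : IsOpen {E : ℂ | D E ≠ 0} :=
  isOpen_ne_fun differentiable_D.continuous continuous_const

theorem differentiable_H : Differentiable ℂ H := by
  intro E0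
  by_cases h : D E0 = 0
  · obtain ⟨r0, hr0, rfl⟩ := zero_real h
    obtain ⟨δ, hδ, c, hc, hb⟩ := lower (r0 : ℂ)
    have hD : ∀ E ∈ ball (r0 : ℂ) δ \ {(r0 : ℂ)}, D E ≠ 0 := by
      rintro E ⟨hE, hne⟩ hD0
      obtain ⟨s, hs, rfl⟩ := zero_real hD0
      have h1 := hb _ hE ⟨s, hD0⟩ hne
      simp only [sub_self, norm_zero] at h1
      have := mul_pos hc hs
      linarith
    have h1 := differentiableOn_update_limUnder_of_isLittleO (f := hh) (ball_mem_nhds (r0 : ℂ) hδ)
      (fun E hE => (differentiableAt_hh (hD E hE)).differentiableWithinAt) ?_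
    · have h2 : H =ᶠ[𝓝 (r0 : ℂ)] Function.update hh r0 (limUnder (𝓝[≠] (r0 : ℂ)) hh) := by
        filter_upwards [ball_mem_nhds (r0 : ℂ) hδ] with E hE
        by_cases hE2 : E = r0
        · subst hE2
          rw [Function.update_self, H]
        · rw [Function.update_of_ne hE2, H_eq (hD E ⟨hE, hE2⟩)]
      exact (h1.differentiableAt (ball_mem_nhds (r0 : ℂ) hδ)).congr_of_eventuallyEq h2
    · rw [Asymptotics.isLittleO_iff_tendsto']
      · have h2 := (tendsto_hh (r0 := r0) h)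
        have h3 : Tendsto (fun E : ℂ => (E - r0) * hh r0) (𝓝[≠] (r0 : ℂ)) (𝓝 0) := by
          have : Continuous fun E : ℂ => (E - r0) * hh r0 := by fun_prop
          have h4 := this.tendsto (r0 : ℂ)
          simp only [sub_self, zero_mul] at h4
          exact h4.mono_left nhdsWithin_le_nhds
        have h4 := h2.sub h3
        rw [sub_zero] at h4
        refine h4.congr fun E => ?_
        rw [div_inv_eq_mul]; ring
      · filter_upwards [self_mem_nhdsWithin] with E hE h3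
        exact absurd (inv_eq_zero.1 h3) (sub_ne_zero.2 hE)
  · have h1 : H =ᶠ[𝓝 E0] hh := by
      filter_upwards [isOpen_D.mem_nhds h] with E hE
      exact H_eq hE
    exact (differentiableAt_hh h).congr_of_eventuallyEq h1

/-- distance of a positive number to a point -/
theorem dist_bound {s ρ : ℝ} (_ : 0 < s) (hρ : 0 < ρ) {E : ℂ} (hE : ‖E‖ = ρ) :
    |E.im| * (s + ρ) ≤ 2 * ρ * ‖(s : ℂ) - E‖ := by
  have hn : ‖(s : ℂ) - E‖ ^ 2 = (s - E.re) ^ 2 + E.im ^ 2 := by
    rw [← Complex.normSq_eq_norm_sq, Complex.normSq_apply]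
    simp
    ring
  have hρ2 : ρ ^ 2 = E.re ^ 2 + E.im ^ 2 := by
    rw [← hE, ← Complex.normSq_eq_norm_sq, Complex.normSq_apply]; ring
  have h1 : |E.im| ≤ ‖(s : ℂ) - E‖ := by
    have := Complex.abs_im_le_norm ((s : ℂ) - E)
    simpa using this
  have h2 : |E.im| * s ≤ ρ * ‖(s : ℂ) - E‖ := by
    refine abs_le_of_sq_le_sq' ?_ (by positivity) |>.2
    rw [mul_pow, mul_pow, sq_abs, hn, hρ2]
    nlinarith [sq_nonneg (E.re ^ 2 + E.im ^ 2 - s * E.re)]
  nlinarith

theorem tendsto_tail : Tendsto (fun n : ℕ => ∑' r : Z, wt r / (r + ((n : ℝ) + 1) ^ 3)) atTop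
    (𝓝 0) := by
  have h0 : (0 : ℝ) = ∑' _ : Z, (0 : ℝ) := tsum_zero.symm
  rw [h0]
  refine tendsto_tsum_of_dominated_convergence (bound := fun r : Z => wt r / r) summable_wt ?_ ?_
  · intro r
    refine tendsto_const_nhds.div_atTop ?_
    have h1 : Tendsto (fun n : ℕ => ((n : ℝ) + 1) ^ 3) atTop atTop :=
      (tendsto_pow_atTop three_ne_zero).comp
        (tendsto_atTop_add_const_right _ _ tendsto_natCast_atTop_atTop)
    exact tendsto_atTop_add_const_left _ _ h1
  · refine Eventually.of_forall fun n r => ?_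
    have hr := Z_pos r.2
    have hw := wt_pos r.2
    rw [Real.norm_of_nonneg (by positivity)]
    exact div_le_div_of_nonneg_left hw.le hr (by
      have : (0 : ℝ) ≤ ((n : ℝ) + 1) ^ 3 := by positivity
      linarith)

theorem circle_bound (n : ℕ) {E : ℂ} (hE : ‖E‖ = ((n : ℝ) + 1) ^ 3) :
    ‖(1 - E ^ 2 / (((n : ℝ) + 1) ^ 3 : ℝ) ^ 2) * H E‖
      ≤ 16 / ((n : ℝ) + 1) + 4 * ∑' r : Z, wt r / (r + ((n : ℝ) + 1) ^ 3) := by
  set ρ : ℝ := ((n : ℝ) + 1) ^ 3 with hρ
  have hρpos : 0 < ρ := by positivity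
  have hsum0 : 0 ≤ ∑' r : Z, wt r / (r + ρ) :=
    tsum_nonneg fun r => div_nonneg (wt_pos r.2).le (by have := Z_pos r.2; positivity)
  have hfac : ‖1 - E ^ 2 / (ρ : ℂ) ^ 2‖ = 2 * |E.im| / ρ := by
    have e1 : (ρ : ℂ) ^ 2 = E * conj E := by
      rw [Complex.mul_conj', hE]
    have hE0 : E ≠ 0 := by
      rw [← norm_pos_iff, hE]; exact hρpos
    have hc0 : conj E ≠ 0 := by simpa using hE0
    have e2 : 1 - E ^ 2 / (ρ : ℂ) ^ 2 = (conj E - E) / conj E := by
      rw [e1]; field_simp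
    rw [e2, norm_div, RCLike.norm_conj, hE]
    congr 1
    have e3 : conj E - E = ((-(2 * E.im) : ℝ) : ℂ) * I := by
      apply Complex.ext
      · simp
      · simp; ring
    rw [e3, norm_mul, norm_I, mul_one, Complex.norm_real, norm_neg, Real.norm_eq_abs, abs_mul]
    norm_num
  rw [norm_mul, hfac]
  rcases eq_or_ne E.im 0 with him | him
  · rw [him, abs_zero, mul_zero, zero_div, zero_mul]
    positivity
  have hDE : D E ≠ 0 := by
    intro h
    obtain ⟨s, _, rfl⟩ := zero_real h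
    simp at him
  have hy : 0 < |E.im| := abs_pos.2 him
  have hN : 2 * |E.im| / ρ * ‖N E / D E‖ ≤ 16 / ((n : ℝ) + 1) := by
    have h1 := main_bound (r := (n : ℝ) + 1) (by positivity) hE
    have hD0 : 0 < ‖D E‖ := norm_pos_iff.2 hDE
    rw [norm_div]
    have h2 : 2 * |E.im| / ρ * (‖N E‖ / ‖D E‖) = 2 / ρ * ((‖N E‖ * |E.im|) / ‖D E‖) := by
      field_simp
    have h3 : (‖N E‖ * |E.im|) / ‖D E‖ ≤ 8 * ((n : ℝ) + 1) ^ 2 := by
      rw [div_le_iff₀ hD0]; exact h1
    rw [h2]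
    calc _ ≤ 2 / ρ * (8 * ((n : ℝ) + 1) ^ 2) := mul_le_mul_of_nonneg_left h3 (by positivity)
      _ = _ := by rw [hρ]; field_simp; ring
  have hT : 2 * |E.im| / ρ * ‖T E‖ ≤ 4 * ∑' r : Z, wt r / (r + ρ) := by
    have hs : Summable fun r : Z => 2 * ρ / |E.im| * (wt r / (r + ρ)) := by
      refine Summable.mul_left _ (Summable.of_nonneg_of_le (fun r => ?_) (fun r => ?_) summable_wt)
      · have := Z_pos r.2
        have := wt_pos r.2
        positivity
      · have hr := Z_pos r.2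
        have hw := wt_pos r.2
        exact div_le_div_of_nonneg_left hw.le hr (by linarith)
    have h1 : ‖T E‖ ≤ ∑' r : Z, 2 * ρ / |E.im| * (wt r / (r + ρ)) := by
      refine tsum_of_norm_bounded hs.hasSum fun r => ?_
      have hr := Z_pos r.2
      have hw := wt_pos r.2
      rw [norm_div, Complex.norm_real, Real.norm_of_nonneg hw.le]
      have h2 := dist_bound hr hρpos hE
      have h3 : 0 < ‖((r : ℝ) : ℂ) - E‖ := by
        rw [norm_pos_iff, sub_ne_zero]
        rintro h4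
        rw [← h4] at him
        simp at him
      rw [div_le_iff₀ h3]
      have h4 : 2 * ρ / |E.im| * (wt r / (r + ρ)) * ‖((r : ℝ) : ℂ) - E‖
          = wt r * ((2 * ρ * ‖((r : ℝ) : ℂ) - E‖) / (|E.im| * (r + ρ))) := by
        field_simp
      rw [h4]
      refine le_mul_of_one_le_right hw.le ?_
      rw [one_le_div (by positivity)]
      exact h2
    rw [tsum_mul_left] at h1
    calc _ ≤ 2 * |E.im| / ρ * (2 * ρ / |E.im| * ∑' r : Z, wt r / (r + ρ)) :=
          mul_le_mul_of_nonneg_left h1 (by positivity)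
      _ = _ := by field_simp; ring
  rw [H_eq hDE, hh]
  have h5 : ‖-(N E / D E) - T E‖ ≤ ‖N E / D E‖ + ‖T E‖ := by
    have := norm_sub_le (-(N E / D E)) (T E)
    rwa [norm_neg] at this
  calc _ ≤ 2 * |E.im| / ρ * (‖N E / D E‖ + ‖T E‖) :=
        mul_le_mul_of_nonneg_left h5 (by positivity)
    _ ≤ _ := by rw [mul_add]; linarith

theorem H_zero (z : ℂ) : H z = 0 := by
  have h1 : Tendsto (fun n : ℕ => 16 / ((n : ℝ) + 1)
      + 4 * ∑' r : Z, wt r / (r + ((n : ℝ) + 1) ^ 3)) atTop (𝓝 0) := by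
    have e1 := tendsto_one_div_add_atTop_nhds_zero_nat (𝕜 := ℝ)
    have e2 := (e1.const_mul 16).add (tendsto_tail.const_mul 4)
    simp only [mul_zero, add_zero] at e2
    refine e2.congr fun n => ?_
    ring
  have hρt : Tendsto (fun n : ℕ => ((n : ℝ) + 1) ^ 3) atTop atTop :=
    (tendsto_pow_atTop three_ne_zero).comp
      (tendsto_atTop_add_const_right _ _ tendsto_natCast_atTop_atTop)
  have h2 : Tendsto (fun n : ℕ => ‖(1 - z ^ 2 / ((((n : ℝ) + 1) ^ 3 : ℝ) : ℂ) ^ 2) * H z‖) atTop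
      (𝓝 ‖(1 - z ^ 2 * (0 : ℂ) ^ 2) * H z‖) := by
    have e1 : Tendsto (fun n : ℕ => (((((n : ℝ) + 1) ^ 3 : ℝ) : ℂ))⁻¹) atTop (𝓝 0) := by
      have e2 := (Complex.continuous_ofReal.tendsto 0).comp (tendsto_inv_atTop_zero.comp hρt)
      rw [ofReal_zero] at e2
      refine e2.congr fun n => ?_
      simp [Function.comp]
    have e3 := (((tendsto_const_nhds (x := (1 : ℂ))).sub ((e1.pow 2).const_mul (z ^ 2))).mul_const
      (H z)).norm
    refine e3.congr fun n => ?_
    rw [inv_pow, div_eq_mul_inv]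
  have h3 : ∀ᶠ n : ℕ in atTop, ‖(1 - z ^ 2 / ((((n : ℝ) + 1) ^ 3 : ℝ) : ℂ) ^ 2) * H z‖
      ≤ 16 / ((n : ℝ) + 1) + 4 * ∑' r : Z, wt r / (r + ((n : ℝ) + 1) ^ 3) := by
    filter_upwards [hρt.eventually_ge_atTop ‖z‖] with n hn
    have hd : Differentiable ℂ fun E : ℂ => (1 - E ^ 2 / ((((n : ℝ) + 1) ^ 3 : ℝ) : ℂ) ^ 2) * H E := by
      have := differentiable_H
      have h5 : Differentiable ℂ fun E : ℂ => (1 - E ^ 2 / ((((n : ℝ) + 1) ^ 3 : ℝ) : ℂ) ^ 2) := by
        intro E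
        exact ((differentiableAt_id.pow 2).div_const _).const_sub _
      exact h5.mul this
    have hρ0 : ((n : ℝ) + 1) ^ 3 ≠ 0 := by positivity
    refine Complex.norm_le_of_forall_mem_frontier_norm_le (U := ball (0 : ℂ) (((n : ℝ) + 1) ^ 3))
      isBounded_ball hd.diffContOnCl ?_ ?_
    · intro E hE
      rw [frontier_ball _ hρ0, mem_sphere, dist_zero_right] at hE
      exact circle_bound n hE
    · rw [closure_ball _ hρ0, mem_closedBall, dist_zero_right]
      exact hn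
  have h4 := le_of_tendsto_of_tendsto h2 h1 h3
  have h5 : ‖(1 - z ^ 2 * (0 : ℂ) ^ 2) * H z‖ = ‖H z‖ := by
    congr 1; ring
  rw [h5] at h4
  exact norm_le_zero_iff.1 h4

/-- the partial fraction expansion of `-N / D` -/
theorem expansion {E : ℂ} (h : D E ≠ 0) : T E = -(N E / D E) := by
  have h1 := H_eq h
  rw [H_zero, hh] at h1
  exact (sub_eq_zero.1 h1.symm).symm

theorem summable_T {E : ℂ} (h : D E ≠ 0) : Summable fun r : Z => (wt r : ℂ) / (r - E) := by
  obtain ⟨δ, hδ, c, hc, hb⟩ := lower E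
  refine Summable.of_norm_bounded (summable_wt.mul_left (1 / c)) fun r => ?_
  refine term_bound hc (hb E (mem_ball_self hδ) r ?_) hδ
  rintro h1
  rw [← h1] at h
  exact h r.2

end Pool.Agent.X125.EQ
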