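import Pool.Agent.X125.EQ.Exp

/-!
# Assembly: the masses on two half lines
-/

set_option autoImplicit false

open MeasureTheory Complex Filter Topology Set Metric
open scoped ComplexConjugate InnerProductSpace

namespace Pool.Agent.X125.EQ

theorem exists_zero {ι : Type} [Fintype ι] [DecidableEq ι] (z : ι → ℂ)
    (hz : Function.Injective z) (a : ι → ℝ) (ha : ∀ i, 0 < a i) (hc : 2 ≤ Fintype.card ι) :
    ∃ w, (∀ i, w ≠ z i) ∧ ∑ i, (a i : ℂ) / (w - z i) = 0 := by
  classical
  have hmon : ∀ i : ι, (∏ j ∈ Finset.univ.erase i, (Polynomial.X - Polynomial.C (z j))).Monic :=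
    fun i => Polynomial.monic_prod_of_monic _ _ fun j _ => Polynomial.monic_X_sub_C _
  have hdeg : ∀ i : ι, (∏ j ∈ Finset.univ.erase i, (Polynomial.X - Polynomial.C (z j))).natDegree
      = Fintype.card ι - 1 := by
    intro i
    rw [Polynomial.natDegree_prod_of_monic _ _ fun j _ => Polynomial.monic_X_sub_C _]
    simp
  set Q : Polynomial ℂ := ∑ i, Polynomial.C (a i : ℂ) *
    ∏ j ∈ Finset.univ.erase i, (Polynomial.X - Polynomial.C (z j)) with hQ
  have hne : Nonempty ι := Fintype.card_pos_iff.1 (by omega)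
  have hcoef : Q.coeff (Fintype.card ι - 1) = ((∑ i, a i : ℝ) : ℂ) := by
    rw [hQ, Polynomial.finsetSum_coeff]
    push_cast
    refine Finset.sum_congr rfl fun i _ => ?_
    rw [Polynomial.coeff_C_mul, ← hdeg i, (hmon i).coeff_natDegree, mul_one]
  have hsum : 0 < ∑ i, a i := Finset.sum_pos (fun i _ => ha i) Finset.univ_nonempty
  have hcoef0 : Q.coeff (Fintype.card ι - 1) ≠ 0 := by
    rw [hcoef]
    exact_mod_cast hsum.ne'
  have hd : 0 < Q.degree := by
    rw [← Polynomial.natDegree_pos_iff_degree_pos]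
    have := Polynomial.le_natDegree_of_ne_zero hcoef0
    omega
  obtain ⟨w, hw⟩ := Complex.exists_root hd
  have hev : ∀ v : ℂ, Q.eval v = ∑ i, (a i : ℂ) * ∏ j ∈ Finset.univ.erase i, (v - z j) := by
    intro v
    rw [hQ, Polynomial.eval_finsetSum]
    refine Finset.sum_congr rfl fun i _ => ?_
    rw [Polynomial.eval_mul, Polynomial.eval_C, Polynomial.eval_prod]
    simp
  have hw0 : ∑ i, (a i : ℂ) * ∏ j ∈ Finset.univ.erase i, (w - z j) = 0 := by
    rw [← hev]; exact hw
  have hwz : ∀ i, w ≠ z i := by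
    rintro i rfl
    rw [Finset.sum_eq_single i] at hw0
    · rcases mul_eq_zero.1 hw0 with h | h
      · exact (ha i).ne' (by exact_mod_cast h)
      · rw [Finset.prod_eq_zero_iff] at h
        obtain ⟨j, hj, hj2⟩ := h
        exact (Finset.ne_of_mem_erase hj) (hz (sub_eq_zero.1 hj2)).symm
    · intro j _ hj
      rw [Finset.prod_eq_zero (i := i) (Finset.mem_erase.2 ⟨hj.symm, Finset.mem_univ _⟩)
        (sub_self _), mul_zero]
    · intro h; exact absurd (Finset.mem_univ _) h
  refine ⟨w, hwz, ?_⟩
  have hp : ∏ j, (w - z j) ≠ 0 := Finset.prod_ne_zero_iff.2 fun j _ => sub_ne_zero.2 (hwz j)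
  have h1 : (∏ j, (w - z j)) * ∑ i, (a i : ℂ) / (w - z i) = 0 := by
    rw [Finset.mul_sum, ← hw0]
    refine Finset.sum_congr rfl fun i _ => ?_
    rw [← Finset.mul_prod_erase Finset.univ _ (Finset.mem_univ i)]
    have := sub_ne_zero.2 (hwz i)
    field_simp
  exact (mul_eq_zero.1 h1).resolve_left hp

/-- half of the square root of two -/
noncomputable def cc : ℝ := Real.sqrt 2 / 2

theorem cc_pos : 0 < cc := by unfold cc; positivity

theorem cc_sq : cc * cc = 1 / 2 := by
  unfold cc
  have := Real.mul_self_sqrt (show (0 : ℝ) ≤ 2 by norm_num)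
  linarith

theorem cc_sq' : (cc : ℂ) * cc = 1 / 2 := by
  rw [← ofReal_mul, cc_sq]; push_cast; ring

/-- the eighth root of unity and its conjugate -/
noncomputable def om (b : Bool) : ℂ := if b then cc + cc * I else cc - cc * I

theorem om_mul : om true * om false = 1 := by
  simp only [om, if_true, Bool.false_eq_true, if_false]
  linear_combination 2 * cc_sq' - (cc : ℂ) * cc * I_sq

theorem om_I : om true = I * om false := by
  simp only [om, if_true, Bool.false_eq_true, if_false]
  linear_combination (cc : ℂ) * I_sq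

theorem norm_om (b : Bool) : ‖om b‖ = 1 := by
  have h : ‖om b‖ ^ 2 = 1 := by
    rw [← Complex.normSq_eq_norm_sq, Complex.normSq_apply]
    cases b <;> simp [om] <;> linarith [cc_sq]
  have h1 := norm_nonneg (om b)
  nlinarith

/-- the positions of the masses -/
noncomputable def pole (p : Z × Bool) : ℂ := om p.2 * (p.1 : ℝ)

theorem norm_pole (p : Z × Bool) : ‖pole p‖ = p.1 := by
  rw [pole, norm_mul, norm_om, one_mul, Complex.norm_real, Real.norm_of_nonneg (Z_pos p.1.2).le]

theorem pole_injective : Function.Injective pole := by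
  rintro ⟨r, b⟩ ⟨s, c⟩ h
  have h1 : (r : ℝ) = s := by
    have := congrArg norm h
    rwa [norm_pole, norm_pole] at this
  have h2 : r = s := Subtype.ext h1
  subst h2
  have hr := Z_pos r.2
  have h3 : om b = om c := by
    have h4 : (((r : ℝ)) : ℂ) ≠ 0 := by exact_mod_cast hr.ne'
    exact mul_right_cancel₀ h4 h
  have h5 := congrArg Complex.im h3
  have h6 := cc_pos
  cases b <;> cases c <;> simp [om] at h5 ⊢ <;> linarith

/-- the complex conjugate of the field -/
noncomputable def fld (z : ℂ) : ℂ := ∑' p : Z × Bool, (wt p.1 : ℂ) / (z - pole p)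

theorem D_ne_of {z : ℂ} (hz : ∀ p, z ≠ pole p) : D (om false * z) ≠ 0 ∧ D (om true * z) ≠ 0 := by
  constructor
  · intro h
    obtain ⟨r, hr, h1⟩ := zero_real h
    have hrZ : r ∈ Z := by
      change D r = 0
      rw [← h1]; exact h
    apply hz (⟨r, hrZ⟩, true)
    simp only [pole]
    rw [← h1, ← mul_assoc, om_mul, one_mul]
  · intro h
    obtain ⟨r, hr, h1⟩ := zero_real h
    have hrZ : r ∈ Z := by
      change D r = 0
      rw [← h1]; exact h
    apply hz (⟨r, hrZ⟩, false)
    simp only [pole]
    rw [← h1, ← mul_assoc, mul_comm (om false), om_mul, one_mul]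

theorem term_eq (z : ℂ) (r : Z) (b : Bool) :
    (wt r : ℂ) / (z - pole (r, b)) = -(om (!b) * ((wt r : ℂ) / (r - om (!b) * z))) := by
  have h1 : om b * om (!b) = 1 := by
    cases b
    · simp only [Bool.not_false]; rw [mul_comm]; exact om_mul
    · simp only [Bool.not_true]; exact om_mul
  have h2 : om (!b) ≠ 0 := by
    intro h; rw [h, mul_zero] at h1; exact zero_ne_one h1
  have h3 : ((r : ℝ) : ℂ) - om (!b) * z = -(om (!b) * (z - pole (r, b))) := by
    simp only [pole]
    linear_combination (-((r : ℝ) : ℂ)) * h1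
  rw [h3]
  rcases eq_or_ne (z - pole (r, b)) 0 with h4 | h4
  · rw [h4]; simp
  · field_simp

/-- the two half lines as a disjoint union -/
def eqv : Z ⊕ Z ≃ Z × Bool := (Equiv.boolProdEquivSum Z).symm.trans (Equiv.prodComm Bool Z)

theorem hasSum_fld {z : ℂ} (hz : ∀ p, z ≠ pole p) :
    HasSum (fun p : Z × Bool => (wt p.1 : ℂ) / (z - pole p))
      (-(om true * T (om true * z)) + -(om false * T (om false * z))) := by
  obtain ⟨h1, h2⟩ := D_ne_of hz
  have s1 := ((summable_T h1).hasSum.mul_left (om false)).neg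
  have s2 := ((summable_T h2).hasSum.mul_left (om true)).neg
  have e1 : HasSum (fun r : Z => (wt r : ℂ) / (z - pole (r, true))) (-(om false * T (om false * z))) := by
    refine s1.congr_fun fun r => ?_
    exact term_eq z r true
  have e2 : HasSum (fun r : Z => (wt r : ℂ) / (z - pole (r, false))) (-(om true * T (om true * z))) := by
    refine s2.congr_fun fun r => ?_
    exact term_eq z r false
  rw [← eqv.hasSum_iff]
  exact HasSum.sum e2 e1

theorem alg {w n1 d1 n2 d2 : ℂ} (h1 : d1 ≠ 0) (h2 : d2 ≠ 0) :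
    -(I * w * -(n2 / d2)) + -(w * -(n1 / d1))
      = -(I * w) * (n1 * (I * d2) - d1 * n2) / (d1 * d2) := by
  rw [eq_div_iff (mul_ne_zero h1 h2)]
  have e1 : n1 / d1 * d1 = n1 := div_mul_cancel₀ _ h1
  have e2 : n2 / d2 * d2 = n2 := div_mul_cancel₀ _ h2
  linear_combination (I * w * d1) * e2 + (w * d2) * e1 + (w * n1 * d2) * I_sq

theorem fld_ne {z : ℂ} (hz : ∀ p, z ≠ pole p) : fld z ≠ 0 := by
  obtain ⟨h1, h2⟩ := D_ne_of hz
  rw [fld, (hasSum_fld hz).tsum_eq, expansion h1, expansion h2]
  have h3 : om true * z = I * (om false * z) := by rw [om_I]; ring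
  have hw := wronskian_ne (om false * z)
  have h5 : om false ≠ 0 := by
    intro h
    have := norm_om false
    rw [h, norm_zero] at this
    exact zero_ne_one this
  rw [h3] at h2 ⊢
  have h4 : -(om true * -(N (I * (om false * z)) / D (I * (om false * z))))
      + -(om false * -(N (om false * z) / D (om false * z)))
      = -(I * om false) * (N (om false * z) * (I * D (I * (om false * z)))
        - D (om false * z) * N (I * (om false * z)))
        / (D (om false * z) * D (I * (om false * z))) := by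
    rw [om_I]
    exact alg h1 h2
  rw [h4]
  exact div_ne_zero (mul_ne_zero (neg_ne_zero.2 (mul_ne_zero I_ne_zero h5)) hw)
    (mul_ne_zero h1 h2)

theorem Z_nonempty : Nonempty Z := by
  by_contra h
  rw [not_nonempty_iff] at h
  have h1 : T 0 = 0 := by rw [T, tsum_empty]
  rw [expansion D_zero_ne, neg_eq_zero, div_eq_zero_iff] at h1
  have h2 := h1.resolve_right D_zero_ne
  exact wronskian_ne 0 (by simp [h2])

theorem Z_infinite : Infinite Z := by
  by_contra h
  rw [not_infinite_iff_finite] at h
  have := Z_nonempty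
  have hf : Fintype Z := Fintype.ofFinite Z
  have hd : DecidableEq Z := Classical.decEq Z
  have hc : 2 ≤ Fintype.card (Z × Bool) := by
    rw [Fintype.card_prod, Fintype.card_bool]
    have : 0 < Fintype.card Z := Fintype.card_pos
    omega
  obtain ⟨w, hw, hs⟩ := exists_zero pole pole_injective (fun p => wt p.1)
    (fun p => wt_pos p.1.2) hc
  refine fld_ne hw ?_
  rw [fld, tsum_fintype]
  exact hs

theorem Z_countable : Countable Z := by
  have h : (Z : Set ℝ) ⊆ ⋃ n : ℕ, {r : ℝ | r ∈ Z ∧ r ≤ n} := by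
    intro r hr
    obtain ⟨n, hn⟩ := exists_nat_ge r
    exact mem_iUnion.2 ⟨n, hr, hn⟩
  have h2 : (⋃ n : ℕ, {r : ℝ | r ∈ Z ∧ r ≤ n}).Countable :=
    countable_iUnion fun n => (Z_finite n).countable
  exact (h2.mono h).to_subtype

theorem exists_equiv : Nonempty (ℕ ≃ Z × Bool) := by
  have := Z_infinite
  have := Z_countable
  have : Infinite (Z × Bool) := Prod.infinite_of_left
  have : Countable (Z × Bool) := inferInstance
  exact nonempty_equiv_of_countable

theorem summable_pole : Summable fun p : Z × Bool => wt p.1 / ‖pole p‖ := by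
  rw [← eqv.summable_iff]
  have h : Summable fun r : Z => wt r / r := summable_wt
  refine Summable.sum _ ?_ ?_
  · refine h.congr fun r => ?_
    simp only [Function.comp, eqv, Equiv.trans_apply]
    change _ = wt r / ‖pole (r, false)‖
    rw [norm_pole]
  · refine h.congr fun r => ?_
    change _ = wt r / ‖pole (r, true)‖
    rw [norm_pole]

theorem finite_pole (R : ℝ) : {p : Z × Bool | ‖pole p‖ ≤ R}.Finite := by
  have h : {r : Z | (r : ℝ) ≤ R}.Finite := by
    refine Set.Finite.of_finite_image (f := Subtype.val) ?_ Subtype.val_injective.injOn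
    refine (Z_finite R).subset ?_
    rintro _ ⟨r, hr, rfl⟩
    exact ⟨r.2, hr⟩
  refine (h.prod (Set.finite_univ (α := Bool))).subset ?_
  intro p hp
  rw [mem_ofPred_eq, norm_pole] at hp
  exact ⟨hp, mem_univ _⟩

end Pool.Agent.X125.EQ
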