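import Mathlib

/-!
# Integrals over vertical lines: the parabolic cylinder function
-/

set_option autoImplicit false

open MeasureTheory Complex Filter Topology Set Metric

namespace Pool.Agent.X125.EQ

/-- a general lemma: differentiation of a parameter integral, domination only of the integrand -/
theorem hasDerivAt_param {G G' : ℂ → ℝ → ℂ} {b : ℝ → ℝ} {z0 : ℂ} {ρ : ℝ} (hρ : 0 < ρ)
    (hd : ∀ z ∈ ball z0 ρ, ∀ σ, HasDerivAt (fun w => G w σ) (G' z σ) z)
    (hc : ∀ z ∈ ball z0 ρ, Continuous (G z)) (hc' : Continuous (G' z0))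
    (hb : ∀ z ∈ ball z0 ρ, ∀ σ, ‖G z σ‖ ≤ b σ) (hbi : Integrable b) :
    Integrable (G' z0) ∧ HasDerivAt (fun z => ∫ σ, G z σ) (∫ σ, G' z0 σ) z0 := by
  have hρ2 : 0 < ρ / 2 := by positivity
  refine hasDerivAt_integral_of_dominated_loc_of_deriv_le (F := G) (F' := G')
    (bound := fun σ => b σ / (ρ / 4)) (s := ball z0 (ρ / 2)) (ball_mem_nhds z0 hρ2) ?_ ?_ ?_ ?_ ?_ ?_
  · filter_upwards [ball_mem_nhds z0 hρ] with z hz
    exact (hc z hz).aestronglyMeasurable
  · refine hbi.mono' (hc z0 (mem_ball_self hρ)).aestronglyMeasurable (Eventually.of_forall ?_)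
    intro σ
    exact hb z0 (mem_ball_self hρ) σ
  · exact hc'.aestronglyMeasurable
  · refine Eventually.of_forall fun σ z hz => ?_
    have hz' : ∀ w ∈ closedBall z (ρ / 4), w ∈ ball z0 ρ := by
      intro w hw
      rw [mem_closedBall] at hw
      rw [mem_ball] at hz ⊢
      calc dist w z0 ≤ dist w z + dist z z0 := dist_triangle _ _ _
        _ < ρ := by linarith
    have h1 : DiffContOnCl ℂ (fun w => G w σ) (ball z (ρ / 4)) := by
      refine DifferentiableOn.diffContOnCl_ball (U := closedBall z (ρ / 4)) ?_ subset_rfl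
      intro w hw
      exact (hd w (hz' w hw) σ).differentiableAt.differentiableWithinAt
    have h2 := Complex.norm_deriv_le_of_forall_mem_sphere_norm_le (by positivity) h1
      (fun w hw => hb w (hz' w (sphere_subset_closedBall hw)) σ)
    rwa [(hd z (hz' z (mem_closedBall_self (by positivity))) σ).deriv] at h2
  · exact hbi.div_const _
  · refine Eventually.of_forall fun σ z hz => ?_
    exact hd z (ball_subset_ball (by linarith) hz) σ

/-- the point of height `σ` on the vertical line through `c` -/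
noncomputable def sv (c σ : ℝ) : ℂ := c + σ * I

@[simp] theorem sv_re (c σ : ℝ) : (sv c σ).re = c := by simp [sv]
@[simp] theorem sv_im (c σ : ℝ) : (sv c σ).im = σ := by simp [sv]

theorem sv_ne {c : ℝ} (hc : 0 < c) (σ : ℝ) : sv c σ ≠ 0 := by
  intro h
  have := congrArg Complex.re h
  simp at this
  linarith

theorem sv_slit {c : ℝ} (hc : 0 < c) (σ : ℝ) : sv c σ ∈ slitPlane := by
  left; simpa using hc

theorem norm_sv_le {c : ℝ} (hc : 0 < c) (σ : ℝ) : ‖sv c σ‖ ≤ c + |σ| := by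
  have := norm_add_le (c : ℂ) (σ * I)
  simpa [sv, abs_of_pos hc] using this

theorem le_norm_sv {c : ℝ} (hc : 0 < c) (σ : ℝ) : c ≤ ‖sv c σ‖ := by
  have := Complex.abs_re_le_norm (sv c σ)
  rwa [sv_re, abs_of_pos hc] at this

theorem norm_log_sv {c : ℝ} (hc : 0 < c) (σ : ℝ) :
    ‖log (sv c σ)‖ ≤ c + |σ| + 1 / c + Real.pi := by
  have h0 : 0 < ‖sv c σ‖ := norm_pos_iff.2 (sv_ne hc σ)
  have h1 : ‖log (sv c σ)‖ ≤ |(log (sv c σ)).re| + |(log (sv c σ)).im| :=
    Complex.norm_le_abs_re_add_abs_im _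
  rw [log_re, log_im] at h1
  have h2 : |arg (sv c σ)| ≤ Real.pi := abs_arg_le_pi _
  have h3 : |Real.log ‖sv c σ‖| ≤ ‖sv c σ‖ + 1 / ‖sv c σ‖ := by
    rw [abs_le]
    constructor
    · have := Real.log_le_sub_one_of_pos (x := 1 / ‖sv c σ‖) (by positivity)
      rw [one_div, Real.log_inv] at this
      rw [one_div]
      linarith
    · have := Real.log_le_sub_one_of_pos h0
      have h4 : 0 < 1 / ‖sv c σ‖ := by positivity
      linarith
  have h4 : 1 / ‖sv c σ‖ ≤ 1 / c := one_div_le_one_div_of_le hc (le_norm_sv hc σ)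
  have h5 := norm_sv_le hc σ
  linarith

/-- the integrand -/
noncomputable def F (c : ℝ) (x μ : ℂ) (σ : ℝ) : ℂ :=
  exp (sv c σ ^ 2 - x * sv c σ - μ * log (sv c σ))

/-- the integral over the vertical line through `c` -/
noncomputable def K (c : ℝ) (x μ : ℂ) : ℂ := ∫ σ : ℝ, F c x μ σ

theorem norm_F_le {c : ℝ} (hc : 0 < c) (x μ : ℂ) (σ : ℝ) :
    ‖F c x μ σ‖ ≤ Real.exp (c ^ 2 + (‖x‖ + ‖μ‖) * c + ‖μ‖ * (1 / c + Real.pi)
      + (‖x‖ + ‖μ‖) * |σ| - σ ^ 2) := by
  rw [F, Complex.norm_exp, Real.exp_le_exp]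
  have h1 : (sv c σ ^ 2 - x * sv c σ - μ * log (sv c σ)).re
      = c ^ 2 - σ ^ 2 - (x * sv c σ).re - (μ * log (sv c σ)).re := by
    rw [sub_re, sub_re, sq, mul_re, sv_re, sv_im]; ring
  rw [h1]
  have h2 : -(x * sv c σ).re ≤ ‖x‖ * (c + |σ|) := by
    have := Complex.abs_re_le_norm (x * sv c σ)
    rw [norm_mul] at this
    have h3 := mul_le_mul_of_nonneg_left (norm_sv_le hc σ) (norm_nonneg x)
    have := (abs_le.1 this).1
    linarith
  have h3 : -(μ * log (sv c σ)).re ≤ ‖μ‖ * (c + |σ| + 1 / c + Real.pi) := by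
    have := Complex.abs_re_le_norm (μ * log (sv c σ))
    rw [norm_mul] at this
    have h3 := mul_le_mul_of_nonneg_left (norm_log_sv hc σ) (norm_nonneg μ)
    have := (abs_le.1 this).1
    linarith
  nlinarith [h2, h3]

/-- uniform domination -/
theorem norm_F_le' {c0 c1 X m c : ℝ} (hc0 : 0 < c0) (h0 : c0 ≤ c) (h1 : c ≤ c1) {x μ : ℂ}
    (hx : ‖x‖ ≤ X) (hμ : ‖μ‖ ≤ m) (σ : ℝ) :
    ‖F c x μ σ‖ ≤ Real.exp (c1 ^ 2 + (X + m) * c1 + m * (1 / c0 + Real.pi) + (X + m) ^ 2 / 2)
      * Real.exp (-(1 / 2) * σ ^ 2) := by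
  have hc : 0 < c := hc0.trans_le h0
  refine (norm_F_le hc x μ σ).trans ?_
  rw [← Real.exp_add, Real.exp_le_exp]
  have hX : 0 ≤ X := (norm_nonneg _).trans hx
  have hm : 0 ≤ m := (norm_nonneg _).trans hμ
  have e1 : c ^ 2 ≤ c1 ^ 2 := pow_le_pow_left₀ hc.le h1 2
  have e2 : (‖x‖ + ‖μ‖) * c ≤ (X + m) * c1 := mul_le_mul (by linarith) h1 hc.le (by linarith)
  have e3 : ‖μ‖ * (1 / c + Real.pi) ≤ m * (1 / c0 + Real.pi) := by
    have : 1 / c ≤ 1 / c0 := one_div_le_one_div_of_le hc0 h0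
    exact mul_le_mul hμ (by linarith) (by positivity) hm
  have e4 : (‖x‖ + ‖μ‖) * |σ| ≤ (X + m) * |σ| :=
    mul_le_mul_of_nonneg_right (by linarith) (abs_nonneg _)
  have e5 : (X + m) * |σ| ≤ (X + m) ^ 2 / 2 + σ ^ 2 / 2 := by
    nlinarith [sq_nonneg ((X + m) - |σ|), sq_abs σ]
  linarith

theorem integrable_gauss (C : ℝ) : Integrable fun σ : ℝ => C * Real.exp (-(1 / 2) * σ ^ 2) :=
  (integrable_exp_neg_mul_sq (by norm_num)).const_mul C

theorem continuous_sv (c : ℝ) : Continuous (sv c) := by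
  unfold sv; fun_prop

theorem continuous_log_sv {c : ℝ} (hc : 0 < c) : Continuous fun σ => log (sv c σ) :=
  (continuous_sv c).clog fun σ => sv_slit hc σ

theorem continuous_F {c : ℝ} (hc : 0 < c) (x μ : ℂ) : Continuous (F c x μ) := by
  have h1 := continuous_log_sv hc
  have h2 := continuous_sv c
  unfold F
  fun_prop

theorem integrable_F {c : ℝ} (hc : 0 < c) (x μ : ℂ) : Integrable (F c x μ) :=
  (integrable_gauss _).mono' (continuous_F hc x μ).aestronglyMeasurable
    (Eventually.of_forall fun σ => norm_F_le' hc le_rfl le_rfl le_rfl le_rfl σ)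

theorem F_sub_one {c : ℝ} (hc : 0 < c) (x μ : ℂ) (σ : ℝ) :
    F c x (μ - 1) σ = sv c σ * F c x μ σ := by
  have h : sv c σ ^ 2 - x * sv c σ - (μ - 1) * log (sv c σ)
      = log (sv c σ) + (sv c σ ^ 2 - x * sv c σ - μ * log (sv c σ)) := by ring
  rw [F, h, Complex.exp_add, exp_log (sv_ne hc σ), F]

theorem F_add_one {c : ℝ} (hc : 0 < c) (x μ : ℂ) (σ : ℝ) :
    sv c σ * F c x (μ + 1) σ = F c x μ σ := by
  rw [← F_sub_one hc]; ring_nf

/-- derivatives of the integral with respect to the parameters -/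
theorem hasDerivAt_K {c : ℝ} (hc : 0 < c) {φ ψ φ' ψ' : ℂ → ℂ} (h1 : ∀ z, HasDerivAt φ (φ' z) z)
    (h2 : ∀ z, HasDerivAt ψ (ψ' z) z) (z0 : ℂ) :
    HasDerivAt (fun z => K c (φ z) (ψ z))
      (∫ σ, (-φ' z0 * sv c σ - ψ' z0 * log (sv c σ)) * F c (φ z0) (ψ z0) σ) z0 := by
  obtain ⟨X, hX⟩ := (isCompact_closedBall z0 1).exists_bound_of_continuousOn (f := φ)
    (fun z _ => (h1 z).continuousAt.continuousWithinAt)
  obtain ⟨m, hm⟩ := (isCompact_closedBall z0 1).exists_bound_of_continuousOn (f := ψ)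
    (fun z _ => (h2 z).continuousAt.continuousWithinAt)
  have hcl := continuous_log_sv hc
  have hcs := continuous_sv c
  refine (hasDerivAt_param (G := fun z σ => F c (φ z) (ψ z) σ)
    (G' := fun z σ => (-φ' z * sv c σ - ψ' z * log (sv c σ)) * F c (φ z) (ψ z) σ)
    one_pos ?_ ?_ ?_ ?_ (integrable_gauss (Real.exp (c ^ 2 + (X + m) * c
      + m * (1 / c + Real.pi) + (X + m) ^ 2 / 2)))).2
  · intro z _ σ
    have e1 : HasDerivAt (fun w => sv c σ ^ 2 - φ w * sv c σ - ψ w * log (sv c σ))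
        (-φ' z * sv c σ - ψ' z * log (sv c σ)) z := by
      have := (((h1 z).mul_const (sv c σ)).const_sub (sv c σ ^ 2)).sub
        ((h2 z).mul_const (log (sv c σ)))
      refine this.congr_deriv ?_
      ring
    have e2 := e1.cexp
    refine e2.congr_deriv ?_
    rw [F]; ring
  · intro z _
    exact continuous_F hc _ _
  · have := continuous_F hc (φ z0) (ψ z0)
    fun_prop
  · intro z hz σ
    exact norm_F_le' hc le_rfl le_rfl (hX z (ball_subset_closedBall hz))
      (hm z (ball_subset_closedBall hz)) σ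

theorem differentiable_K {c : ℝ} (hc : 0 < c) {φ ψ : ℂ → ℂ} (h1 : Differentiable ℂ φ)
    (h2 : Differentiable ℂ ψ) : Differentiable ℂ fun z => K c (φ z) (ψ z) := fun z =>
  (hasDerivAt_K hc (fun z => (h1 z).hasDerivAt) (fun z => (h2 z).hasDerivAt) z).differentiableAt

theorem hasDerivAt_K_x {c : ℝ} (hc : 0 < c) {φ φ' : ℂ → ℂ} (h1 : ∀ z, HasDerivAt φ (φ' z) z)
    (μ z0 : ℂ) :
    HasDerivAt (fun z => K c (φ z) μ) (-φ' z0 * K c (φ z0) (μ - 1)) z0 := by
  have h := hasDerivAt_K hc h1 (fun z => hasDerivAt_const z μ) z0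
  refine h.congr_deriv ?_
  rw [K, ← integral_const_mul]
  refine integral_congr_ae (Eventually.of_forall fun σ => ?_)
  simp only [F_sub_one hc]
  ring

/-- the derivative of the integrand along the vertical line -/
theorem hasDerivAt_F {c : ℝ} (hc : 0 < c) (x μ : ℂ) (σ : ℝ) :
    HasDerivAt (F c x μ)
      (I * (2 * F c x (μ - 1) σ - x * F c x μ σ - μ * F c x (μ + 1) σ)) σ := by
  have e0 : HasDerivAt (sv c) I σ := by
    have : HasDerivAt (sv c) (Complex.ofRealCLM 1 * I) σ :=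
      ((Complex.ofRealCLM.hasDerivAt (x := σ)).mul_const I).const_add (c : ℂ)
    refine this.congr_deriv ?_
    simp
  have e1 : HasDerivAt (fun σ => log (sv c σ)) (I / sv c σ) σ := e0.clog_real (sv_slit hc σ)
  have e2 : HasDerivAt (fun σ => sv c σ ^ 2 - x * sv c σ - μ * log (sv c σ))
      (2 * sv c σ * I - x * I - μ * (I / sv c σ)) σ := by
    have := ((e0.pow 2).sub (e0.const_mul x)).sub (e1.const_mul μ)
    refine this.congr_deriv ?_
    push_cast
    ring
  have e3 := e2.cexp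
  refine e3.congr_deriv ?_
  have hne := sv_ne hc σ
  have h3 : F c x (μ + 1) σ = F c x μ σ / sv c σ := by
    rw [← F_add_one hc x μ σ, mul_div_cancel_left₀ _ hne]
  rw [F_sub_one hc, h3, ← F]
  field_simp

theorem hasDerivAt_F_c {c : ℝ} (hc : 0 < c) (x μ : ℂ) (σ : ℝ) :
    HasDerivAt (fun c => F c x μ σ)
      (2 * F c x (μ - 1) σ - x * F c x μ σ - μ * F c x (μ + 1) σ) c := by
  have e0 : HasDerivAt (fun c => sv c σ) 1 c := by
    have : HasDerivAt (fun c => sv c σ) (Complex.ofRealCLM 1) c :=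
      (Complex.ofRealCLM.hasDerivAt (x := c)).add_const _
    refine this.congr_deriv ?_
    simp
  have e1 : HasDerivAt (fun c => log (sv c σ)) (1 / sv c σ) c := e0.clog_real (sv_slit hc σ)
  have e2 : HasDerivAt (fun c => sv c σ ^ 2 - x * sv c σ - μ * log (sv c σ))
      (2 * sv c σ - x - μ * (1 / sv c σ)) c := by
    have := ((e0.pow 2).sub (e0.const_mul x)).sub (e1.const_mul μ)
    refine this.congr_deriv ?_
    push_cast
    ring
  have e3 := e2.cexp
  refine e3.congr_deriv ?_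
  have hne := sv_ne hc σ
  have h3 : F c x (μ + 1) σ = F c x μ σ / sv c σ := by
    rw [← F_add_one hc x μ σ, mul_div_cancel_left₀ _ hne]
  rw [F_sub_one hc, h3, ← F]
  field_simp

theorem integral_deriv_zero {c : ℝ} (hc : 0 < c) (x μ : ℂ) :
    ∫ σ, (2 * F c x (μ - 1) σ - x * F c x μ σ - μ * F c x (μ + 1) σ) = 0 := by
  have i1 := (integrable_F hc x (μ - 1)).const_mul 2
  have i2 := (integrable_F hc x μ).const_mul x
  have i3 := (integrable_F hc x (μ + 1)).const_mul μ
  have h := integral_eq_zero_of_hasDerivAt_of_integrable (fun σ => hasDerivAt_F hc x μ σ)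
    (((i1.sub i2).sub i3).const_mul I) (integrable_F hc x μ)
  rw [integral_const_mul] at h
  exact (mul_eq_zero.1 h).resolve_left I_ne_zero

/-- the three term recursion -/
theorem K_rec {c : ℝ} (hc : 0 < c) (x μ : ℂ) :
    2 * K c x (μ - 1) - x * K c x μ - μ * K c x (μ + 1) = 0 := by
  have i1 := (integrable_F hc x (μ - 1)).const_mul 2
  have i2 := (integrable_F hc x μ).const_mul x
  have i3 := (integrable_F hc x (μ + 1)).const_mul μ
  have i12 : Integrable fun σ => 2 * F c x (μ - 1) σ - x * F c x μ σ := i1.sub i2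
  have h := integral_deriv_zero hc x μ
  rw [integral_sub i12 i3, integral_sub i1 i2, integral_const_mul, integral_const_mul,
    integral_const_mul] at h
  exact h

theorem hasDerivAt_K_c {c : ℝ} (hc : 0 < c) (x μ : ℂ) : HasDerivAt (fun c => K c x μ) 0 c := by
  have hc2 : 0 < c / 2 := by positivity
  have key := hasDerivAt_integral_of_dominated_loc_of_deriv_le (𝕜 := ℝ) (μ := volume)
    (F := fun c σ => F c x μ σ)
    (F' := fun c σ => 2 * F c x (μ - 1) σ - x * F c x μ σ - μ * F c x (μ + 1) σ)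
    (x₀ := c) (s := Ioo (c / 2) (2 * c))
    (bound := fun σ => 2 * (Real.exp ((2 * c) ^ 2 + (‖x‖ + ‖μ - 1‖) * (2 * c)
        + ‖μ - 1‖ * (1 / (c / 2) + Real.pi) + (‖x‖ + ‖μ - 1‖) ^ 2 / 2)
        * Real.exp (-(1 / 2) * σ ^ 2))
      + ‖x‖ * (Real.exp ((2 * c) ^ 2 + (‖x‖ + ‖μ‖) * (2 * c)
        + ‖μ‖ * (1 / (c / 2) + Real.pi) + (‖x‖ + ‖μ‖) ^ 2 / 2)
        * Real.exp (-(1 / 2) * σ ^ 2))
      + ‖μ‖ * (Real.exp ((2 * c) ^ 2 + (‖x‖ + ‖μ + 1‖) * (2 * c)
        + ‖μ + 1‖ * (1 / (c / 2) + Real.pi) + (‖x‖ + ‖μ + 1‖) ^ 2 / 2)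
        * Real.exp (-(1 / 2) * σ ^ 2)))
    (Ioo_mem_nhds (by linarith) (by linarith)) ?_ (integrable_F hc x μ) ?_ ?_ ?_ ?_
  · have h := key.2
    rw [integral_deriv_zero hc x μ] at h
    exact h
  · filter_upwards [Ioo_mem_nhds (show c / 2 < c by linarith) (show c < 2 * c by linarith)]
      with c' hc'
    exact (continuous_F (hc2.trans hc'.1) x μ).aestronglyMeasurable
  · have := continuous_F hc x (μ - 1)
    have := continuous_F hc x μ
    have := continuous_F hc x (μ + 1)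
    exact Continuous.aestronglyMeasurable (by fun_prop)
  · refine Eventually.of_forall fun σ c' hc' => ?_
    refine (norm_sub_le _ _).trans (add_le_add ((norm_sub_le _ _).trans (add_le_add ?_ ?_)) ?_)
    · rw [norm_mul, Complex.norm_ofNat]
      exact mul_le_mul_of_nonneg_left
        (norm_F_le' hc2 hc'.1.le hc'.2.le le_rfl le_rfl σ) (by norm_num)
    · rw [norm_mul]
      exact mul_le_mul_of_nonneg_left
        (norm_F_le' hc2 hc'.1.le hc'.2.le le_rfl le_rfl σ) (norm_nonneg _)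
    · rw [norm_mul]
      exact mul_le_mul_of_nonneg_left
        (norm_F_le' hc2 hc'.1.le hc'.2.le le_rfl le_rfl σ) (norm_nonneg _)
  · exact (((integrable_gauss _).const_mul _).add ((integrable_gauss _).const_mul _)).add
      ((integrable_gauss _).const_mul _)
  · exact Eventually.of_forall fun σ c' hc' => hasDerivAt_F_c (hc2.trans hc'.1) x μ σ

/-- the integral does not depend on the vertical line -/
theorem K_indep {c d : ℝ} (hc : 0 < c) (hd : 0 < d) (x μ : ℂ) : K c x μ = K d x μ := by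
  have h := (convex_Ioi (0 : ℝ)).norm_image_sub_le_of_norm_hasDerivWithin_le
    (f := fun c => K c x μ) (f' := fun _ => 0) (C := 0)
    (fun c hc => (hasDerivAt_K_c hc x μ).hasDerivWithinAt) (fun _ _ => by simp)
    (x := d) (y := c) hd hc
  rw [zero_mul, norm_le_zero_iff, sub_eq_zero] at h
  exact h

end Pool.Agent.X125.EQ
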