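import Pool.Agent.X125.EQ.Spec

/-!
# The zeros of `D`, the weights and their summability
-/

set_option autoImplicit false

open MeasureTheory Complex Filter Topology Set Metric
open scoped ComplexConjugate InnerProductSpace

namespace Pool.Agent.X125.EQ

theorem main_bound {E : ℂ} {r : ℝ} (hr : 0 < r) (hE : ‖E‖ = r ^ 3) :
    ‖N E‖ * |E.im| ≤ 8 * r ^ 2 * ‖D E‖ := by
  rcases eq_or_ne (N E) 0 with h0 | h0
  · rw [h0, norm_zero, zero_mul]; positivity
  have hn : 0 < ‖N E‖ := norm_pos_iff.2 h0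
  have hS := S_pos E
  have hP := P_pos E
  have hprod : ‖D E * conj (N E)‖ = ‖D E‖ * ‖N E‖ := by rw [norm_mul, RCLike.norm_conj]
  have h1 : |E.im| * S E ≤ ‖D E‖ * ‖N E‖ := by
    rw [← abs_of_pos hS, ← abs_mul, im_energy, ← hprod]
    exact Complex.abs_im_le_norm _
  have h2 : P E ≤ ‖E‖ * S E + ‖D E‖ * ‖N E‖ := by
    have e1 := re_energy E
    have e2 := Complex.abs_re_le_norm (D E * conj (N E))
    rw [hprod] at e2
    have e3 := (abs_le.1 e2).1
    have e4 : E.re * S E ≤ ‖E‖ * S E :=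
      mul_le_mul_of_nonneg_right (Complex.re_le_norm E) hS.le
    linarith
  have h3 : |E.im| ≤ ‖E‖ := Complex.abs_im_le_norm E
  have h4 := sobolev E (h := 1 / r) (by positivity)
  have h5 : 4 * S E / (1 / r) ^ 2 + 2 * (1 / r) * P E = 4 * r ^ 2 * S E + 2 * P E / r := by
    field_simp
  rw [h5] at h4
  have hy : 0 ≤ |E.im| := abs_nonneg _
  have h6 : |E.im| * P E ≤ 2 * (r ^ 3 * (‖D E‖ * ‖N E‖)) := by
    have e1 := mul_le_mul_of_nonneg_left h2 hy
    have e2 : |E.im| * (‖E‖ * S E + ‖D E‖ * ‖N E‖)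
        = ‖E‖ * (|E.im| * S E) + |E.im| * (‖D E‖ * ‖N E‖) := by ring
    have e3 : ‖E‖ * (|E.im| * S E) ≤ ‖E‖ * (‖D E‖ * ‖N E‖) :=
      mul_le_mul_of_nonneg_left h1 (norm_nonneg _)
    have e4 : |E.im| * (‖D E‖ * ‖N E‖) ≤ ‖E‖ * (‖D E‖ * ‖N E‖) :=
      mul_le_mul_of_nonneg_right h3 (by positivity)
    rw [hE] at e3 e4
    rw [e2] at e1
    rw [hE] at e1
    linarith
  have h7 : |E.im| * ‖N E‖ ^ 2 ≤ 8 * r ^ 2 * ‖D E‖ * ‖N E‖ := by
    have e1 := mul_le_mul_of_nonneg_left h4 hy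
    have e2 : |E.im| * (4 * r ^ 2 * S E + 2 * P E / r)
        = 4 * r ^ 2 * (|E.im| * S E) + 2 / r * (|E.im| * P E) := by ring
    have e3 : 4 * r ^ 2 * (|E.im| * S E) ≤ 4 * r ^ 2 * (‖D E‖ * ‖N E‖) :=
      mul_le_mul_of_nonneg_left h1 (by positivity)
    have e4 : 2 / r * (|E.im| * P E) ≤ 2 / r * (2 * (r ^ 3 * (‖D E‖ * ‖N E‖))) :=
      mul_le_mul_of_nonneg_left h6 (by positivity)
    have e5 : 2 / r * (2 * (r ^ 3 * (‖D E‖ * ‖N E‖))) = 4 * r ^ 2 * (‖D E‖ * ‖N E‖) := by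
      field_simp; ring
    rw [e2] at e1
    rw [e5] at e4
    linarith
  have h8 : (‖N E‖ * |E.im|) * ‖N E‖ ≤ (8 * r ^ 2 * ‖D E‖) * ‖N E‖ := by
    calc _ = |E.im| * ‖N E‖ ^ 2 := by ring
      _ ≤ _ := h7
  exact le_of_mul_le_mul_right h8 hn

/-! ### reality -/

theorem A_real (r t : ℝ) : A r t = ((A r t).re : ℂ) := ((Complex.conj_eq_iff_re).1 (A_conj r t)).symm

theorem B_real (r t : ℝ) : B r t = ((B r t).re : ℂ) := ((Complex.conj_eq_iff_re).1 (B_conj r t)).symm

theorem N_real (r : ℝ) : N r = ((N r).re : ℂ) := by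
  have := A_real r 0
  simpa [N] using this

theorem D_real (r : ℝ) : D r = ((D r).re : ℂ) := by
  have := B_real r 0
  simpa [D] using this

theorem L_self (r : ℝ) : L r r = (S r : ℂ) := by
  rw [L, S, ← integral_complex_ofReal]
  congr 1
  funext t
  have h := A_real r t
  have h2 : A r t * A r t = ((‖A r t‖ ^ 2 : ℝ) : ℂ) := by
    conv_lhs => rw [h]
    rw [h, Complex.norm_real, Real.norm_eq_abs, sq_abs]
    push_cast
    simp only [ofReal_re]
    ring
  rw [h2]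
  push_cast
  ring

theorem continuous_A_E (t : ℝ) : Continuous fun E : ℂ => A E t := by
  have h := differentiable_K one_pos (φ := fun E : ℂ => 2 * t - E) (by fun_prop) differentiable_mu
  have := h.continuous
  unfold A
  fun_prop

theorem continuousAt_L (r : ℝ) : ContinuousAt (fun E : ℂ => L r E) r := by
  obtain ⟨C, hC, h⟩ := decay' (|r| + 1)
  have hr : ‖(r : ℂ)‖ = |r| := by rw [Complex.norm_real, Real.norm_eq_abs]
  refine continuousAt_of_dominated (bound := fun t => 4 * C ^ 2 * Real.exp (-t ^ 2 / 4)) ?_ ?_ ?_ ?_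
  · refine Eventually.of_forall fun E => ?_
    have := cA r
    have := cA E
    exact Continuous.aestronglyMeasurable (by fun_prop)
  · filter_upwards [ball_mem_nhds (r : ℂ) one_pos] with E hE
    refine (ae_restrict_iff' measurableSet_Ioi).2 (Eventually.of_forall fun t ht => ?_)
    have ht' : (0 : ℝ) ≤ t := le_of_lt ht
    have hE' : ‖E‖ ≤ |r| + 1 := by
      rw [mem_ball, dist_eq_norm] at hE
      calc ‖E‖ = ‖(r : ℂ) + (E - r)‖ := by congr 1; ring
        _ ≤ ‖(r : ℂ)‖ + ‖E - r‖ := norm_add_le _ _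
        _ ≤ _ := by rw [hr]; linarith
    rw [norm_mul, norm_mul]
    exact prod_bound ht' (norm_nonneg _) (norm_nonneg _) (norm_nonneg _) (bd_t t ht')
      (h r t (by rw [hr]; linarith) ht').1 (h E t hE' ht').1
  · exact (integrable_quarter _).integrableOn
  · refine Eventually.of_forall fun t => ?_
    have := continuous_A_E t
    exact Continuous.continuousAt (by fun_prop)

/-- the residue -/
theorem tendsto_M {r : ℝ} (hr : D r = 0) :
    Tendsto (fun E : ℂ => (E - r) * (N E / D E)) (𝓝[≠] (r : ℂ)) (𝓝 ((‖N r‖ ^ 2 / S r : ℝ) : ℂ)) := by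
  have hL : Tendsto (fun E : ℂ => L r E) (𝓝[≠] (r : ℂ)) (𝓝 (S r : ℂ)) := by
    have := (continuousAt_L r).tendsto
    rw [L_self] at this
    exact this.mono_left nhdsWithin_le_nhds
  have hS : (S r : ℂ) ≠ 0 := by exact_mod_cast (S_pos r).ne'
  have hN : Tendsto N (𝓝[≠] (r : ℂ)) (𝓝 (N r)) :=
    (differentiable_N.continuous.tendsto _).mono_left nhdsWithin_le_nhds
  have h1 := (hN.mul_const (N r)).div hL hS
  have h2 : N r * N r / (S r : ℂ) = ((‖N r‖ ^ 2 / S r : ℝ) : ℂ) := by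
    have h3 := N_real r
    have h4 : N r * N r = ((‖N r‖ ^ 2 : ℝ) : ℂ) := by
      conv_lhs => rw [h3]
      rw [h3, Complex.norm_real, Real.norm_eq_abs, sq_abs]
      push_cast
      simp only [ofReal_re]
      ring
    rw [h4]; push_cast; ring
  rw [h2] at h1
  refine h1.congr' ?_
  filter_upwards [hL.eventually_ne hS, self_mem_nhdsWithin] with E hE hne
  have hne' : E - r ≠ 0 := sub_ne_zero.2 hne
  have h3 := lagrange r E
  rw [hr, zero_mul, sub_zero] at h3
  have hNr : N r ≠ 0 := N_ne hr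
  have hD : D E ≠ 0 := by
    intro h4
    rw [h4, mul_zero] at h3
    exact mul_ne_zero hne' hE h3.symm
  simp only [Pi.div_apply]
  rw [div_eq_iff hE]
  field_simp
  linear_combination N E * h3

/-! ### the zeros -/

/-- the set of zeros of `D` -/
def Z : Set ℝ := {r | D r = 0}

theorem Z_pos {r : ℝ} (hr : r ∈ Z) : 0 < r := by
  obtain ⟨s, hs, h⟩ := zero_real hr
  have : r = s := by exact_mod_cast h
  rwa [this]

theorem D_zero_ne : D 0 ≠ 0 := by
  intro h
  obtain ⟨s, hs, h1⟩ := zero_real h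
  have : (0 : ℝ) = s := by exact_mod_cast h1
  linarith

theorem Z_finite (R : ℝ) : {r : ℝ | r ∈ Z ∧ r ≤ R}.Finite := by
  by_contra hinf
  have hsub : {r : ℝ | r ∈ Z ∧ r ≤ R} ⊆ Icc 0 R := fun r hr => ⟨(Z_pos hr.1).le, hr.2⟩
  obtain ⟨x, _, hx⟩ := Set.Infinite.exists_accPt_of_subset_isCompact hinf isCompact_Icc hsub
  have h1 : ∃ᶠ y in 𝓝[≠] x, y ∈ {r : ℝ | r ∈ Z ∧ r ≤ R} := accPt_iff_frequently_nhdsNE.1 hx
  have h2 : Tendsto (fun y : ℝ => (y : ℂ)) (𝓝[≠] x) (𝓝[≠] (x : ℂ)) := by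
    rw [tendsto_nhdsWithin_iff]
    refine ⟨(Complex.continuous_ofReal.tendsto x).mono_left nhdsWithin_le_nhds, ?_⟩
    filter_upwards [self_mem_nhdsWithin] with y hy
    simp only [mem_compl_iff, mem_singleton_iff, ofReal_inj]
    exact hy
  have h3 : ∃ᶠ z in 𝓝[≠] (x : ℂ), D z = 0 := h2.frequently (h1.mono fun y hy => hy.1)
  have h4 := AnalyticOnNhd.eq_of_frequently_eq (z₀ := (x : ℂ)) (g := fun _ => (0 : ℂ))
    (differentiable_D.differentiableOn.analyticOnNhd isOpen_univ) analyticOnNhd_const h3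
  exact D_zero_ne (congrFun h4 0)

/-- the weights -/
noncomputable def wt (r : ℝ) : ℝ := ‖N r‖ ^ 2 / S r

theorem wt_pos {r : ℝ} (hr : r ∈ Z) : 0 < wt r := by
  have := norm_pos_iff.2 (N_ne hr)
  have := S_pos r
  unfold wt
  positivity

/-! ### Bessel's inequality -/

/-- the energy vector -/
noncomputable def Ph (r t : ℝ) : ℂ := B r t + I * (t * A r t)

theorem continuous_Ph (r : ℝ) : Continuous (Ph r) := by
  have := cA r
  have := cB r
  unfold Ph
  fun_prop

theorem inner_Ph (r s t : ℝ) : inner ℝ (Ph r t) (Ph s t)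
    = (B r t * B s t + (t : ℂ) ^ 2 * (A r t * A s t)).re := by
  rw [Complex.inner, Ph, Ph, B_real r t, A_real r t, B_real s t, A_real s t]
  simp [sq]
  ring

theorem norm_Ph (r t : ℝ) : ‖Ph r t‖ ^ 2 = ‖B r t‖ ^ 2 + t ^ 2 * ‖A r t‖ ^ 2 := by
  rw [← real_inner_self_eq_norm_sq, inner_Ph, B_real r t, A_real r t, Complex.norm_real,
    Complex.norm_real, Real.norm_eq_abs, Real.norm_eq_abs, sq_abs, sq_abs]
  simp [sq]

theorem memLp_Ph (r : ℝ) : MemLp (Ph r) 2 (volume.restrict (Ioi 0)) := by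
  rw [memLp_two_iff_integrable_sq_norm (continuous_Ph r).aestronglyMeasurable]
  simp_rw [norm_Ph]
  exact int_P r

/-- the energy vector as an element of `L ^ 2` -/
noncomputable def PhL (r : ℝ) : Lp ℂ 2 (volume.restrict (Ioi (0 : ℝ))) := (memLp_Ph r).toLp _

theorem inner_PhL (r s : ℝ) : inner ℝ (PhL r) (PhL s) = (En r s).re := by
  rw [L2.inner_def]
  have h : ∀ᵐ t ∂(volume.restrict (Ioi (0 : ℝ))), inner ℝ (PhL r t) (PhL s t)
      = (B r t * B s t + (t : ℂ) ^ 2 * (A r t * A s t)).re := by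
    filter_upwards [(memLp_Ph r).coeFn_toLp, (memLp_Ph s).coeFn_toLp] with t h1 h2
    rw [PhL, PhL, h1, h2, inner_Ph]
  rw [integral_congr_ae h, En]
  exact integral_re ((int_BB r s).add (int_AA r s (fun t => (t : ℂ) ^ 2) (by fun_prop) bd_t2))

theorem En_self {r : ℝ} (hr : r ∈ Z) : (En r r).re = r * S r := by
  have h := energy_bilinear r r
  have h0 : D r = 0 := hr
  rw [h0, mul_zero, neg_zero, sub_eq_zero, L_self] at h
  rw [h]
  simp

theorem En_ne {r s : ℝ} (hr : r ∈ Z) (hs : s ∈ Z) (hne : r ≠ s) : (En r s).re = 0 := by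
  have h := energy_bilinear r s
  have hl := lagrange r s
  have h0 : D r = 0 := hr
  have h1 : D s = 0 := hs
  rw [h0, h1, mul_zero, zero_mul, sub_zero] at hl
  have h2 : L r s = 0 := by
    refine (mul_eq_zero.1 hl.symm).resolve_left (sub_ne_zero.2 ?_)
    exact_mod_cast hne.symm
  rw [h1, h2, mul_zero, mul_zero, neg_zero, sub_zero] at h
  rw [h, zero_re]

theorem En_zero {r : ℝ} (hr : r ∈ Z) : En r (0 : ℝ) = -(D 0 * N r) := by
  have h := energy_bilinear 0 r
  have hl := lagrange 0 r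
  have h0 : D r = 0 := hr
  rw [h0] at h hl
  rw [ofReal_zero, En_symm]
  linear_combination h - hl

theorem orthonormal_PhL :
    Orthonormal ℝ fun r : Z => ((Real.sqrt (r * S r))⁻¹ : ℝ) • PhL r := by
  classical
  rw [orthonormal_iff_ite]
  intro r s
  rw [inner_smul_left, inner_smul_right, inner_PhL]
  split_ifs with h
  · subst h
    have h1 : 0 < (r : ℝ) * S (r : ℝ) := mul_pos (Z_pos r.2) (S_pos _)
    rw [En_self r.2]
    have h2 := Real.mul_self_sqrt h1.le
    have h3 : Real.sqrt ((r : ℝ) * S (r : ℝ)) ≠ 0 := (Real.sqrt_pos.2 h1).ne'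
    simp only [conj_trivial]
    field_simp
    rw [sq, h2]
  · rw [En_ne r.2 s.2 (fun h1 => h (Subtype.ext h1))]
    simp

theorem summable_wt : Summable fun r : Z => wt r / r := by
  have h := orthonormal_PhL.inner_products_summable (PhL 0)
  have hD : 0 < ‖D 0‖ ^ 2 := by
    have := norm_pos_iff.2 D_zero_ne
    positivity
  have h2 := h.div_const (‖D 0‖ ^ 2)
  refine h2.congr fun r => ?_
  have h1 : 0 < (r : ℝ) * S (r : ℝ) := mul_pos (Z_pos r.2) (S_pos _)
  have h3 := Real.sq_sqrt h1.le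
  have hr := Z_pos r.2
  have hS := S_pos (r : ℝ)
  rw [inner_smul_left, inner_PhL, En_zero r.2, norm_mul, mul_pow]
  have h4 : ‖(-(D 0 * N (r : ℝ))).re‖ ^ 2 = ‖D 0‖ ^ 2 * ‖N (r : ℝ)‖ ^ 2 := by
    have e1 := D_real 0
    rw [ofReal_zero] at e1
    have e2 := N_real r
    rw [e1, e2, ← ofReal_mul, ← ofReal_neg, ofReal_re, norm_neg, norm_mul, Complex.norm_real,
      Complex.norm_real, mul_pow]
  rw [h4]
  simp only [conj_trivial, norm_inv, Real.norm_eq_abs, inv_pow, sq_abs]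
  have hD0 : ‖D 0‖ ≠ 0 := (norm_pos_iff.2 D_zero_ne).ne'
  rw [h3, wt]
  field_simp

end Pool.Agent.X125.EQ
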