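import Pool.Agent.X125.EQ.K

/-!
# The decaying solutions of `w'' = (t ^ 2 - E t) w`
-/

set_option autoImplicit false

open MeasureTheory Complex Filter Topology Set Metric

namespace Pool.Agent.X125.EQ

noncomputable def mu (E : ℂ) : ℂ := 1 / 2 - E ^ 2 / 8

/-- the decaying solution -/
noncomputable def A (E t : ℂ) : ℂ := exp (t ^ 2 / 2 - E * t / 2) * K 1 (2 * t - E) (mu E)

/-- its derivative -/
noncomputable def B (E t : ℂ) : ℂ :=
  exp (t ^ 2 / 2 - E * t / 2) *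
    ((t - E / 2) * K 1 (2 * t - E) (mu E) - 2 * K 1 (2 * t - E) (mu E - 1))

theorem hasDerivAt_arg (E t : ℂ) : HasDerivAt (fun t : ℂ => 2 * t - E) 2 t := by
  have := ((hasDerivAt_id t).const_mul (2 : ℂ)).sub_const E
  simpa using this

theorem hasDerivAt_phase (E t : ℂ) :
    HasDerivAt (fun t : ℂ => exp (t ^ 2 / 2 - E * t / 2))
      (exp (t ^ 2 / 2 - E * t / 2) * (t - E / 2)) t := by
  have h : HasDerivAt (fun t : ℂ => t ^ 2 / 2 - E * t / 2) (t - E / 2) t := by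
    have := (((hasDerivAt_id t).pow 2).div_const 2).sub (((hasDerivAt_id t).const_mul E).div_const 2)
    refine this.congr_deriv ?_
    simp
  exact h.cexp

theorem hasDerivAt_A (E t : ℂ) : HasDerivAt (A E) (B E t) t := by
  have h1 := hasDerivAt_K_x one_pos (hasDerivAt_arg E) (mu E) t
  have h := (hasDerivAt_phase E t).mul h1
  refine h.congr_deriv ?_
  rw [B]; ring

theorem hasDerivAt_B (E t : ℂ) : HasDerivAt (B E) ((t ^ 2 - E * t) * A E t) t := by
  have h1 := hasDerivAt_K_x one_pos (hasDerivAt_arg E) (mu E) t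
  have h2 := hasDerivAt_K_x one_pos (hasDerivAt_arg E) (mu E - 1) t
  have h3 : HasDerivAt (fun t : ℂ => t - E / 2) 1 t := (hasDerivAt_id t).sub_const _
  have h := (hasDerivAt_phase E t).mul ((h3.mul h1).sub (h2.const_mul 2))
  refine h.congr_deriv ?_
  have hr := K_rec one_pos (2 * t - E) (mu E - 1)
  have e1 : mu E - 1 + 1 = mu E := by ring
  rw [e1] at hr
  rw [A]
  have e2 : mu E = 1 / 2 - E ^ 2 / 8 := rfl
  have e3 : 4 * K 1 (2 * t - E) (mu E - 1 - 1) = 2 * (2 * t - E) * K 1 (2 * t - E) (mu E - 1)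
      + 2 * (mu E - 1) * K 1 (2 * t - E) (mu E) := by linear_combination 2 * hr
  have e4 : (t - E / 2) * ((t - E / 2) * K 1 (2 * t - E) (mu E)
        - 2 * K 1 (2 * t - E) (mu E - 1))
      + (1 * K 1 (2 * t - E) (mu E) + (t - E / 2) * (-2 * K 1 (2 * t - E) (mu E - 1))
        - 2 * (-2 * K 1 (2 * t - E) (mu E - 1 - 1)))
      = (t ^ 2 - E * t) * K 1 (2 * t - E) (mu E) := by
    have e5 : mu E - 1 = -1 / 2 - E ^ 2 / 8 := by rw [e2]; ring
    have e6 : 4 * K 1 (2 * t - E) (mu E - 1 - 1) = 2 * (2 * t - E) * K 1 (2 * t - E) (mu E - 1)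
      + 2 * (-1 / 2 - E ^ 2 / 8) * K 1 (2 * t - E) (mu E) := by rw [e3, ← e5]
    linear_combination e6
  simp only [Pi.sub_apply, Pi.mul_apply]
  linear_combination exp (t ^ 2 / 2 - E * t / 2) * e4

/-- the value at zero -/
noncomputable def N (E : ℂ) : ℂ := A E 0

/-- the derivative at zero -/
noncomputable def D (E : ℂ) : ℂ := B E 0

theorem differentiable_mu : Differentiable ℂ mu := by unfold mu; fun_prop

theorem differentiable_N : Differentiable ℂ N := by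
  have h : N = fun E => K 1 (-E) (mu E) := by
    funext E
    simp [N, A]
  rw [h]
  exact differentiable_K one_pos differentiable_id.neg differentiable_mu

theorem differentiable_D : Differentiable ℂ D := by
  have h : D = fun E => -(E / 2) * K 1 (-E) (mu E) - 2 * K 1 (-E) (mu E - 1) := by
    funext E
    simp [D, B]
  rw [h]
  have h1 := differentiable_K one_pos (φ := fun E => -E) differentiable_id.neg differentiable_mu
  have h2 := differentiable_K one_pos (φ := fun E => -E) differentiable_id.neg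
    (differentiable_mu.sub_const 1)
  fun_prop

/-! ### Decay -/

theorem norm_log_sv' {c : ℝ} (hc : 1 ≤ c) (σ : ℝ) :
    ‖log (sv c σ)‖ ≤ c + |σ| + 5 := by
  have h := norm_log_sv (zero_lt_one.trans_le hc) σ
  have h1 : 1 / c ≤ 1 := by rw [div_le_one (by linarith)]; exact hc
  have := Real.pi_lt_four
  linarith

/-- the bound on the shifted line -/
theorem norm_K_le {R : ℝ} (hR : 0 ≤ R) : ∃ C : ℝ, 0 ≤ C ∧ ∀ (E ν : ℂ) (t : ℝ), ‖E‖ ≤ R → ‖ν‖ ≤ R →
    0 ≤ t → ‖K 1 (2 * t - E) ν‖ ≤ C * Real.exp (-t ^ 2 + 2 * R * t) := by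
  have hi : Integrable fun σ : ℝ => Real.exp (1 + 7 * R + 2 * R ^ 2) *
      Real.exp (-(1 / 2) * σ ^ 2) := integrable_gauss _
  refine ⟨∫ σ : ℝ, Real.exp (1 + 7 * R + 2 * R ^ 2) * Real.exp (-(1 / 2) * σ ^ 2),
    integral_nonneg fun σ => by positivity, ?_⟩
  intro E ν t hE hν ht
  have hc : (0 : ℝ) < t + 1 := by linarith
  rw [K_indep one_pos hc, K, ← integral_mul_const]
  refine norm_integral_le_of_norm_le (hi.mul_const _) (Eventually.of_forall fun σ => ?_)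
  rw [F, Complex.norm_exp, ← Real.exp_add, ← Real.exp_add, Real.exp_le_exp]
  have h1 : (sv (t + 1) σ ^ 2 - (2 * t - E) * sv (t + 1) σ - ν * log (sv (t + 1) σ)).re
      = 1 - t ^ 2 - σ ^ 2 + (E * sv (t + 1) σ).re - (ν * log (sv (t + 1) σ)).re := by
    have e1 : (sv (t + 1) σ ^ 2).re = (t + 1) ^ 2 - σ ^ 2 := by
      rw [sq, mul_re, sv_re, sv_im]; ring
    have e2 : ((2 * (t : ℂ) - E) * sv (t + 1) σ).re = 2 * t * (t + 1) - (E * sv (t + 1) σ).re := by
      rw [sub_mul, sub_re]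
      congr 1
      rw [mul_assoc, mul_re, mul_re]
      simp
      ring
    rw [sub_re, sub_re, e1, e2]
    ring
  rw [h1]
  have h2 : (E * sv (t + 1) σ).re ≤ R * (t + 1 + |σ|) := by
    have := Complex.re_le_norm (E * sv (t + 1) σ)
    rw [norm_mul] at this
    exact this.trans (mul_le_mul hE (norm_sv_le hc σ) (norm_nonneg _) hR)
  have h3 : -(ν * log (sv (t + 1) σ)).re ≤ R * (t + 1 + |σ| + 5) := by
    have := Complex.abs_re_le_norm (ν * log (sv (t + 1) σ))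
    rw [norm_mul] at this
    have h4 := mul_le_mul hν (norm_log_sv' (by linarith : (1:ℝ) ≤ t + 1) σ) (norm_nonneg _) hR
    have := (abs_le.1 this).1
    linarith
  have h4 : 2 * R * |σ| ≤ 2 * R ^ 2 + σ ^ 2 / 2 := by
    nlinarith [sq_nonneg (2 * R - |σ|), sq_abs σ]
  linarith

theorem decay {R : ℝ} (hR : 1 ≤ R) : ∃ C : ℝ, 0 ≤ C ∧ ∀ (E : ℂ) (t : ℝ), ‖E‖ ≤ R → 0 ≤ t →
    ‖A E t‖ ≤ C * Real.exp (-t ^ 2 / 4) ∧ ‖B E t‖ ≤ C * Real.exp (-t ^ 2 / 4) := by
  obtain ⟨C, hC, h⟩ := norm_K_le (R := 2 * R ^ 2 + 2) (by positivity)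
  refine ⟨C * Real.exp (R / 2 + 2 + (R / 2 + 2 * (2 * R ^ 2 + 2) + 1) ^ 2), by positivity, ?_⟩
  intro E t hE ht
  have hR2 : R ≤ R ^ 2 := by nlinarith
  have hE' : ‖E‖ ≤ 2 * R ^ 2 + 2 := by linarith
  have hE2 : ‖E‖ ^ 2 ≤ R ^ 2 := pow_le_pow_left₀ (norm_nonneg _) hE 2
  have hm : ‖mu E‖ ≤ 1 / 2 + R ^ 2 / 8 := by
    rw [mu]
    refine (norm_sub_le _ _).trans ?_
    simp only [norm_div, norm_pow, norm_one, Complex.norm_ofNat]
    linarith
  have hm1 : ‖mu E‖ ≤ 2 * R ^ 2 + 2 := by nlinarith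
  have hm2 : ‖mu E - 1‖ ≤ 2 * R ^ 2 + 2 := by
    refine (norm_sub_le _ _).trans ?_
    rw [norm_one]
    nlinarith
  have k1 := h E (mu E) t hE' hm1 ht
  have k2 := h E (mu E - 1) t hE' hm2 ht
  have hp : ‖exp ((t : ℂ) ^ 2 / 2 - E * t / 2)‖ ≤ Real.exp (t ^ 2 / 2 + R / 2 * t) := by
    rw [Complex.norm_exp, Real.exp_le_exp]
    have e1 : ((t : ℂ) ^ 2 / 2 - E * t / 2).re = t ^ 2 / 2 - E.re * t / 2 := by
      have : ((t : ℂ) ^ 2 / 2 - E * t / 2) = ((t ^ 2 / 2 : ℝ) : ℂ) - E * ((t / 2 : ℝ) : ℂ) := by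
        push_cast; ring
      rw [this, sub_re, ofReal_re, re_mul_ofReal]
      ring
    rw [e1]
    have e2 : -R ≤ E.re := by
      have := Complex.abs_re_le_norm E
      have := (abs_le.1 this).1
      linarith
    nlinarith
  have hfin : ∀ β : ℝ, 0 ≤ β → β ≤ R / 2 + 2 * (2 * R ^ 2 + 2) + 1 →
      -t ^ 2 / 2 + β * t ≤ (R / 2 + 2 * (2 * R ^ 2 + 2) + 1) ^ 2 + -t ^ 2 / 4 := by
    intro β hβ hβ'
    have h1 : β * t ≤ t ^ 2 / 4 + β ^ 2 := by nlinarith [sq_nonneg (t / 2 - β)]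
    have h2 : β ^ 2 ≤ (R / 2 + 2 * (2 * R ^ 2 + 2) + 1) ^ 2 := pow_le_pow_left₀ hβ hβ' 2
    linarith
  constructor
  · rw [A, norm_mul]
    calc _ ≤ Real.exp (t ^ 2 / 2 + R / 2 * t) *
          (C * Real.exp (-t ^ 2 + 2 * (2 * R ^ 2 + 2) * t)) :=
          mul_le_mul hp k1 (norm_nonneg _) (by positivity)
      _ = C * Real.exp (-t ^ 2 / 2 + (R / 2 + 2 * (2 * R ^ 2 + 2)) * t) := by
          rw [mul_left_comm, ← Real.exp_add]; ring_nf
      _ ≤ C * Real.exp (R / 2 + 2 + (R / 2 + 2 * (2 * R ^ 2 + 2) + 1) ^ 2 + -t ^ 2 / 4) := by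
          refine mul_le_mul_of_nonneg_left (Real.exp_le_exp.2 ?_) hC
          have := hfin (R / 2 + 2 * (2 * R ^ 2 + 2)) (by positivity) (by linarith)
          linarith
      _ = _ := by rw [Real.exp_add]; ring
  · rw [B, norm_mul]
    have hq : ‖(t : ℂ) - E / 2‖ + 2 ≤ Real.exp (t + R / 2 + 2) := by
      have h1 : ‖(t : ℂ) - E / 2‖ ≤ t + R / 2 := by
        refine (norm_sub_le _ _).trans ?_
        rw [norm_div, Complex.norm_ofNat, Complex.norm_real, Real.norm_of_nonneg ht]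
        linarith
      have := Real.add_one_le_exp (t + R / 2 + 2)
      linarith
    have hk : ‖((t : ℂ) - E / 2) * K 1 (2 * t - E) (mu E) - 2 * K 1 (2 * t - E) (mu E - 1)‖
        ≤ Real.exp (t + R / 2 + 2) * (C * Real.exp (-t ^ 2 + 2 * (2 * R ^ 2 + 2) * t)) := by
      refine (norm_sub_le _ _).trans ?_
      rw [norm_mul, norm_mul, Complex.norm_ofNat]
      have h1 := mul_le_mul_of_nonneg_left k1 (norm_nonneg ((t : ℂ) - E / 2))
      have h2 : 0 ≤ C * Real.exp (-t ^ 2 + 2 * (2 * R ^ 2 + 2) * t) := by positivity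
      have h3 := mul_le_mul_of_nonneg_right hq h2
      linarith
    calc _ ≤ Real.exp (t ^ 2 / 2 + R / 2 * t) * (Real.exp (t + R / 2 + 2) *
          (C * Real.exp (-t ^ 2 + 2 * (2 * R ^ 2 + 2) * t))) :=
          mul_le_mul hp hk (norm_nonneg _) (by positivity)
      _ = C * Real.exp (R / 2 + 2 + (-t ^ 2 / 2 + (R / 2 + 2 * (2 * R ^ 2 + 2) + 1) * t)) := by
          rw [mul_left_comm, mul_left_comm (Real.exp (t ^ 2 / 2 + R / 2 * t)), ← Real.exp_add,
            mul_left_comm, ← Real.exp_add]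
          ring_nf
      _ ≤ C * Real.exp (R / 2 + 2 + (R / 2 + 2 * (2 * R ^ 2 + 2) + 1) ^ 2 + -t ^ 2 / 4) := by
          refine mul_le_mul_of_nonneg_left (Real.exp_le_exp.2 ?_) hC
          have := hfin (R / 2 + 2 * (2 * R ^ 2 + 2) + 1) (by positivity) le_rfl
          linarith
      _ = _ := by rw [Real.exp_add]; ring

/-! ### Reality -/

theorem F_conj (x μ : ℝ) (σ : ℝ) : starRingEnd ℂ (F 1 x μ σ) = F 1 x μ (-σ) := by
  have h1 : starRingEnd ℂ (sv 1 σ) = sv 1 (-σ) := by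
    apply Complex.ext <;> simp
  have h2 : starRingEnd ℂ (log (sv 1 σ)) = log (sv 1 (-σ)) := by
    rw [← h1, log_conj]
    intro h
    have := sv_slit one_pos σ
    rw [mem_slitPlane_iff_arg] at this
    exact this.1 h
  rw [F, F, ← exp_conj, map_sub, map_sub, map_mul, map_mul, map_pow, h1, h2, conj_ofReal,
    conj_ofReal]

theorem K_conj (x μ : ℝ) : starRingEnd ℂ (K 1 x μ) = K 1 x μ := by
  rw [K, ← integral_conj]
  simp_rw [F_conj]
  exact integral_neg_eq_self (fun σ => F 1 x μ σ) volume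

theorem A_conj (E t : ℝ) : starRingEnd ℂ (A E t) = A E t := by
  have h1 : (2 * (t : ℂ) - E) = ((2 * t - E : ℝ) : ℂ) := by push_cast; ring
  have h2 : mu E = ((1 / 2 - E ^ 2 / 8 : ℝ) : ℂ) := by rw [mu]; push_cast; ring
  have h3 : ((t : ℂ) ^ 2 / 2 - E * t / 2) = ((t ^ 2 / 2 - E * t / 2 : ℝ) : ℂ) := by
    push_cast; ring
  rw [A, map_mul, h1, h2, K_conj, h3, ← exp_conj, conj_ofReal]

theorem B_conj (E t : ℝ) : starRingEnd ℂ (B E t) = B E t := by
  have h1 : (2 * (t : ℂ) - E) = ((2 * t - E : ℝ) : ℂ) := by push_cast; ring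
  have h2 : mu E = ((1 / 2 - E ^ 2 / 8 : ℝ) : ℂ) := by rw [mu]; push_cast; ring
  have h2' : mu E - 1 = ((1 / 2 - E ^ 2 / 8 - 1 : ℝ) : ℂ) := by rw [mu]; push_cast; ring
  have h3 : ((t : ℂ) ^ 2 / 2 - E * t / 2) = ((t ^ 2 / 2 - E * t / 2 : ℝ) : ℂ) := by
    push_cast; ring
  have h4 : ((t : ℂ) - E / 2) = ((t - E / 2 : ℝ) : ℂ) := by push_cast; ring
  have h5 : starRingEnd ℂ (2 : ℂ) = 2 := map_ofNat _ 2
  rw [B, map_mul, map_sub, map_mul, map_mul, h1, h2', h2, K_conj, K_conj, h3, ← exp_conj,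
    conj_ofReal, h4, conj_ofReal, h5]

end Pool.Agent.X125.EQ
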