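import Pool.Agent.X125.EQ.Wron

/-!
# Energy identities on the half line
-/

set_option autoImplicit false

open MeasureTheory Complex Filter Topology Set Metric
open scoped ComplexConjugate

namespace Pool.Agent.X125.EQ

theorem dA (E : ℂ) (t : ℝ) : HasDerivAt (fun t : ℝ => A E t) (B E t) t :=
  (hasDerivAt_A E t).comp_ofReal

theorem dB (E : ℂ) (t : ℝ) : HasDerivAt (fun t : ℝ => B E t) (((t : ℂ) ^ 2 - E * t) * A E t) t :=
  (hasDerivAt_B E t).comp_ofReal

theorem cA (E : ℂ) : Continuous fun t : ℝ => A E t :=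
  continuous_iff_continuousAt.2 fun t => (dA E t).continuousAt

theorem cB (E : ℂ) : Continuous fun t : ℝ => B E t :=
  continuous_iff_continuousAt.2 fun t => (dB E t).continuousAt

theorem integrable_quarter (C : ℝ) : Integrable fun t : ℝ => C * Real.exp (-t ^ 2 / 4) := by
  have h := (integrable_exp_neg_mul_sq (b := 1 / 4) (by norm_num)).const_mul C
  refine h.congr (Eventually.of_forall fun t => ?_)
  simp only
  congr 2
  ring

theorem integrableOn_of_bound {f : ℝ → ℂ} (hf : Continuous f) {C : ℝ}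
    (h : ∀ t, 0 ≤ t → ‖f t‖ ≤ C * Real.exp (-t ^ 2 / 4)) : IntegrableOn f (Ioi 0) := by
  refine Integrable.mono' (integrable_quarter C).integrableOn
    hf.aestronglyMeasurable ?_
  refine (ae_restrict_iff' measurableSet_Ioi).2 (Eventually.of_forall fun t ht => ?_)
  exact h t (le_of_lt ht)

/-- the weight of a product of two decaying functions -/
theorem prod_bound {C t x y p : ℝ} (_ : 0 ≤ t) (hx0 : 0 ≤ x) (hy0 : 0 ≤ y)
    (_ : 0 ≤ p) (hp : p ≤ 1 + t ^ 2)
    (hx : x ≤ C * Real.exp (-t ^ 2 / 4)) (hy : y ≤ C * Real.exp (-t ^ 2 / 4)) :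
    p * (x * y) ≤ 4 * C ^ 2 * Real.exp (-t ^ 2 / 4) := by
  have h1 : x * y ≤ (C * Real.exp (-t ^ 2 / 4)) * (C * Real.exp (-t ^ 2 / 4)) :=
    mul_le_mul hx hy hy0 (hx0.trans hx)
  have h2 : p ≤ 4 * Real.exp (t ^ 2 / 4) := by
    have := Real.add_one_le_exp (t ^ 2 / 4)
    nlinarith
  calc p * (x * y) ≤ (4 * Real.exp (t ^ 2 / 4)) *
        ((C * Real.exp (-t ^ 2 / 4)) * (C * Real.exp (-t ^ 2 / 4))) :=
        mul_le_mul h2 h1 (by positivity) (by positivity)
    _ = 4 * C ^ 2 * (Real.exp (t ^ 2 / 4) * Real.exp (-t ^ 2 / 4) * Real.exp (-t ^ 2 / 4)) := by ring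
    _ = _ := by rw [← Real.exp_add (t ^ 2 / 4), neg_div, add_neg_cancel, Real.exp_zero, one_mul]

theorem decay' (R : ℝ) : ∃ C : ℝ, 0 ≤ C ∧ ∀ (E : ℂ) (t : ℝ), ‖E‖ ≤ R → 0 ≤ t →
    ‖A E t‖ ≤ C * Real.exp (-t ^ 2 / 4) ∧ ‖B E t‖ ≤ C * Real.exp (-t ^ 2 / 4) := by
  obtain ⟨C, hC, h⟩ := decay (R := max R 1) (le_max_right _ _)
  exact ⟨C, hC, fun E t hE ht => h E t (hE.trans (le_max_left _ _)) ht⟩

/-- products of decaying functions -/
theorem decay_two (E E' : ℂ) : ∃ C : ℝ, 0 ≤ C ∧ ∀ t : ℝ, 0 ≤ t →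
    ‖A E t‖ ≤ C * Real.exp (-t ^ 2 / 4) ∧ ‖B E t‖ ≤ C * Real.exp (-t ^ 2 / 4) ∧
    ‖A E' t‖ ≤ C * Real.exp (-t ^ 2 / 4) ∧ ‖B E' t‖ ≤ C * Real.exp (-t ^ 2 / 4) := by
  obtain ⟨C, hC, h⟩ := decay' (max ‖E‖ ‖E'‖)
  exact ⟨C, hC, fun t ht => ⟨(h E t (le_max_left _ _) ht).1, (h E t (le_max_left _ _) ht).2,
    (h E' t (le_max_right _ _) ht).1, (h E' t (le_max_right _ _) ht).2⟩⟩

theorem int_AA (E E' : ℂ) (p : ℝ → ℂ) (hp : Continuous p) (hpb : ∀ t, 0 ≤ t → ‖p t‖ ≤ 1 + t ^ 2) :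
    IntegrableOn (fun t : ℝ => p t * (A E t * A E' t)) (Ioi 0) := by
  obtain ⟨C, hC, h⟩ := decay_two E E'
  have := cA E
  have := cA E'
  refine integrableOn_of_bound (by fun_prop) (C := 4 * C ^ 2) fun t ht => ?_
  rw [norm_mul, norm_mul]
  exact prod_bound ht (norm_nonneg _) (norm_nonneg _) (norm_nonneg _) (hpb t ht) (h t ht).1
    (h t ht).2.2.1

theorem int_BB (E E' : ℂ) : IntegrableOn (fun t : ℝ => B E t * B E' t) (Ioi 0) := by
  obtain ⟨C, hC, h⟩ := decay_two E E'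
  have := cB E
  have := cB E'
  refine integrableOn_of_bound (by fun_prop) (C := 4 * C ^ 2) fun t ht => ?_
  rw [norm_mul]
  have := prod_bound (p := 1) ht (norm_nonneg _) (norm_nonneg _) zero_le_one
    (by nlinarith [sq_nonneg t]) (h t ht).2.1 (h t ht).2.2.2
  rwa [one_mul] at this

theorem tendsto_quarter (C : ℝ) : Tendsto (fun t : ℝ => C * Real.exp (-t ^ 2 / 4)) atTop (𝓝 0) := by
  have h : Tendsto (fun t : ℝ => -t ^ 2 / 4) atTop atBot := by
    have h1 : Tendsto (fun t : ℝ => t ^ 2) atTop atTop := tendsto_pow_atTop two_ne_zero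
    have h2 : Tendsto (fun t : ℝ => t ^ 2 / 4) atTop atTop :=
      h1.atTop_div_const (by norm_num)
    refine (tendsto_neg_atTop_atBot.comp h2).congr fun t => ?_
    simp only [Function.comp]; ring
  simpa using (Real.tendsto_exp_atBot.comp h).const_mul C

theorem tendsto_of_bound {f : ℝ → ℂ} {C : ℝ}
    (h : ∀ t, 0 ≤ t → ‖f t‖ ≤ C * Real.exp (-t ^ 2 / 4)) : Tendsto f atTop (𝓝 0) := by
  refine squeeze_zero_norm' ?_ (tendsto_quarter C)
  filter_upwards [eventually_ge_atTop (0 : ℝ)] with t ht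
  exact h t ht

theorem tendsto_AB (E E' : ℂ) : Tendsto (fun t : ℝ => A E t * B E' t) atTop (𝓝 0) := by
  obtain ⟨C, hC, h⟩ := decay_two E E'
  refine tendsto_of_bound (C := 4 * C ^ 2) fun t ht => ?_
  rw [norm_mul]
  have := prod_bound (p := 1) ht (norm_nonneg _) (norm_nonneg _) zero_le_one
    (by nlinarith [sq_nonneg t]) (h t ht).1 (h t ht).2.2.2
  rwa [one_mul] at this

/-- the weighted bilinear integral -/
noncomputable def L (E E' : ℂ) : ℂ := ∫ t in Ioi (0 : ℝ), (t : ℂ) * (A E t * A E' t)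

/-- the bilinear energy -/
noncomputable def En (E E' : ℂ) : ℂ :=
  ∫ t in Ioi (0 : ℝ), (B E t * B E' t + (t : ℂ) ^ 2 * (A E t * A E' t))

theorem bd_t (t : ℝ) (ht : 0 ≤ t) : ‖(t : ℂ)‖ ≤ 1 + t ^ 2 := by
  rw [Complex.norm_real, Real.norm_of_nonneg ht]
  nlinarith [sq_nonneg (t - 1)]

theorem bd_t2 (t : ℝ) (_ : 0 ≤ t) : ‖(t : ℂ) ^ 2‖ ≤ 1 + t ^ 2 := by
  rw [norm_pow, Complex.norm_real, Real.norm_eq_abs, sq_abs]
  linarith

theorem energy_bilinear (E E' : ℂ) : En E E' - E' * L E E' = -(N E * D E') := by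
  have h1 := int_BB E E'
  have h2 := int_AA E E' (fun t => (t : ℂ) ^ 2) (by fun_prop) bd_t2
  have h3 := int_AA E E' (fun t => (t : ℂ)) (by fun_prop) bd_t
  have h12 : IntegrableOn (fun t : ℝ => B E t * B E' t + (t : ℂ) ^ 2 * (A E t * A E' t)) (Ioi 0) :=
    h1.add h2
  rw [En, L, ← integral_const_mul, ← integral_sub h12 (h3.const_mul E')]
  have h := integral_Ioi_of_hasDerivAt_of_tendsto (a := 0) (m := 0)
    (f := fun t : ℝ => A E t * B E' t)
    (f' := fun t : ℝ => B E t * B E' t + (t : ℂ) ^ 2 * (A E t * A E' t)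
      - E' * ((t : ℂ) * (A E t * A E' t)))
    ((cA E).mul (cB E')).continuousWithinAt ?_ (h12.sub (h3.const_mul E')) (tendsto_AB E E')
  · rw [h]
    simp [N, D]
  · intro t _
    refine ((dA E t).mul (dB E' t)).congr_deriv ?_
    ring

theorem L_symm (E E' : ℂ) : L E E' = L E' E := by
  rw [L, L]
  congr 1
  funext t
  ring

theorem En_symm (E E' : ℂ) : En E E' = En E' E := by
  rw [En, En]
  congr 1
  funext t
  ring

/-- Lagrange's identity -/
theorem lagrange (E E' : ℂ) : N E * D E' - D E * N E' = (E' - E) * L E E' := by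
  have h1 := energy_bilinear E E'
  have h2 := energy_bilinear E' E
  rw [En_symm E' E, L_symm E' E] at h2
  linear_combination h1 - h2

/-! ### the sesquilinear identity -/

noncomputable def S (E : ℂ) : ℝ := ∫ t in Ioi (0 : ℝ), t * ‖A E t‖ ^ 2

noncomputable def P (E : ℂ) : ℝ := ∫ t in Ioi (0 : ℝ), (‖B E t‖ ^ 2 + t ^ 2 * ‖A E t‖ ^ 2)

theorem int_S (E : ℂ) : IntegrableOn (fun t : ℝ => t * ‖A E t‖ ^ 2) (Ioi 0) := by
  obtain ⟨C, hC, h⟩ := decay_two E E
  have h1 : IntegrableOn (fun t : ℝ => ((t * ‖A E t‖ ^ 2 : ℝ) : ℂ)) (Ioi 0) := by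
    have := cA E
    refine integrableOn_of_bound (by fun_prop) (C := 4 * C ^ 2) fun t ht => ?_
    rw [Complex.norm_real, norm_mul, norm_pow, norm_norm, sq]
    have := bd_t t ht
    rw [Complex.norm_real] at this
    exact prod_bound ht (norm_nonneg _) (norm_nonneg _) (norm_nonneg _) this (h t ht).1 (h t ht).1
  exact h1.re

theorem int_P (E : ℂ) : IntegrableOn (fun t : ℝ => ‖B E t‖ ^ 2 + t ^ 2 * ‖A E t‖ ^ 2) (Ioi 0) := by
  obtain ⟨C, hC, h⟩ := decay_two E E
  have h1 : IntegrableOn (fun t : ℝ => ((t ^ 2 * ‖A E t‖ ^ 2 : ℝ) : ℂ)) (Ioi 0) := by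
    have := cA E
    refine integrableOn_of_bound (by fun_prop) (C := 4 * C ^ 2) fun t ht => ?_
    rw [Complex.norm_real, norm_mul, norm_pow ‖A E t‖, norm_norm, sq ‖A E t‖]
    have := bd_t2 t ht
    rw [norm_pow, Complex.norm_real] at this
    rw [norm_pow]
    exact prod_bound ht (norm_nonneg _) (norm_nonneg _) (by positivity) this (h t ht).1 (h t ht).1
  have h2 : IntegrableOn (fun t : ℝ => ((‖B E t‖ ^ 2 : ℝ) : ℂ)) (Ioi 0) := by
    have := cB E
    refine integrableOn_of_bound (by fun_prop) (C := 4 * C ^ 2) fun t ht => ?_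
    rw [Complex.norm_real, norm_pow, norm_norm, sq]
    have := prod_bound (p := 1) ht (norm_nonneg _) (norm_nonneg _) zero_le_one
      (by nlinarith [sq_nonneg t]) (h t ht).2.1 (h t ht).2.1
    rwa [one_mul] at this
  exact h2.re.add h1.re

theorem energy_sesq (E : ℂ) : (P E : ℂ) - E * S E = -(D E * conj (N E)) := by
  obtain ⟨C, hC, hb⟩ := decay_two E E
  have h1 : Integrable (fun t : ℝ => ((‖B E t‖ ^ 2 + t ^ 2 * ‖A E t‖ ^ 2 : ℝ) : ℂ))
      (volume.restrict (Ioi 0)) := (int_P E).ofReal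
  have h2' : Integrable (fun t : ℝ => ((t * ‖A E t‖ ^ 2 : ℝ) : ℂ))
      (volume.restrict (Ioi 0)) := (int_S E).ofReal
  have h2 := h2'.const_mul E
  rw [P, S, ← integral_complex_ofReal, ← integral_complex_ofReal, ← integral_const_mul,
    ← integral_sub h1 h2]
  have dAc : ∀ t : ℝ, HasDerivAt (fun t : ℝ => conj (A E t)) (conj (B E t)) t := by
    intro t
    have := (Complex.conjCLE.toContinuousLinearMap.hasFDerivAt (x := A E t)).comp_hasDerivAt t
      (dA E t)
    exact this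
  have h := integral_Ioi_of_hasDerivAt_of_tendsto (a := 0) (m := 0)
    (f := fun t : ℝ => B E t * conj (A E t))
    (f' := fun t : ℝ => ((‖B E t‖ ^ 2 + t ^ 2 * ‖A E t‖ ^ 2 : ℝ) : ℂ)
      - E * ((t * ‖A E t‖ ^ 2 : ℝ) : ℂ))
    ((cB E).mul (Complex.continuous_conj.comp (cA E))).continuousWithinAt ?_ (h1.sub h2) ?_
  · refine h.trans ?_
    simp [N, D]
  · intro t _
    refine ((dB E t).mul (dAc t)).congr_deriv ?_
    push_cast
    rw [← Complex.mul_conj', ← Complex.mul_conj']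
    ring
  · refine tendsto_of_bound (C := 4 * C ^ 2) fun t ht => ?_
    rw [norm_mul, RCLike.norm_conj]
    have := prod_bound (p := 1) ht (norm_nonneg _) (norm_nonneg _) zero_le_one
      (by nlinarith [sq_nonneg t]) (hb t ht).2.1 (hb t ht).1
    rwa [one_mul] at this

/-! ### nondegeneracy -/

theorem ND_ne (E : ℂ) : ¬ (N E = 0 ∧ D E = 0) := by
  rintro ⟨h1, h2⟩
  exact wronskian_ne E (by rw [h1, h2]; ring)

theorem exists_ne (E : ℂ) : ∃ t : ℝ, 0 < t ∧ A E t ≠ 0 := by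
  by_contra hcon
  push Not at hcon
  have hB : ∀ t : ℝ, 0 < t → B E t = 0 := by
    intro t ht
    have h1 : HasDerivAt (fun t : ℝ => A E t) 0 t := by
      have h2 : (fun t : ℝ => A E t) =ᶠ[𝓝 t] fun _ => 0 := by
        filter_upwards [Ioi_mem_nhds ht] with s hs
        exact hcon s hs
      exact (hasDerivAt_const t (0 : ℂ)).congr_of_eventuallyEq h2
    exact (dA E t).unique h1
  have hlim : ∀ f : ℝ → ℂ, Continuous f → (∀ t, 0 < t → f t = 0) → f 0 = 0 := by
    intro f hf h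
    have h1 : Tendsto f (𝓝[>] 0) (𝓝 (f 0)) := hf.continuousWithinAt.tendsto
    have h2 : Tendsto f (𝓝[>] 0) (𝓝 0) := by
      refine tendsto_const_nhds.congr' ?_
      filter_upwards [self_mem_nhdsWithin] with t ht
      exact (h t ht).symm
    exact tendsto_nhds_unique h1 h2
  refine ND_ne E ⟨?_, ?_⟩
  · have := hlim _ (cA E) hcon
    simpa [N] using this
  · have := hlim _ (cB E) hB
    simpa [D] using this

theorem integral_pos' {f : ℝ → ℝ} (hf : Continuous f) (hi : IntegrableOn f (Ioi 0))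
    (h0 : ∀ t, 0 < t → 0 ≤ f t) {t0 : ℝ} (ht0 : 0 < t0) (h1 : f t0 ≠ 0) :
    0 < ∫ t in Ioi (0 : ℝ), f t := by
  rw [setIntegral_pos_iff_support_of_nonneg_ae]
  · have hopen : IsOpen (Function.support f ∩ Ioi 0) :=
      (isOpen_ne_fun hf continuous_const).inter isOpen_Ioi
    exact hopen.measure_pos _ ⟨t0, h1, ht0⟩
  · exact (ae_restrict_iff' measurableSet_Ioi).2 (Eventually.of_forall h0)
  · exact hi

theorem S_pos (E : ℂ) : 0 < S E := by
  obtain ⟨t, ht, hA⟩ := exists_ne E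
  have := cA E
  refine integral_pos' (by fun_prop) (int_S E) (fun t ht => by positivity) ht ?_
  have := norm_pos_iff.2 hA
  positivity

theorem P_pos (E : ℂ) : 0 < P E := by
  obtain ⟨t, ht, hA⟩ := exists_ne E
  have := cA E
  have := cB E
  refine integral_pos' (by fun_prop) (int_P E) (fun t ht => by positivity) ht ?_
  have := norm_pos_iff.2 hA
  positivity

/-- the zeros of `D` are positive reals -/
theorem zero_real {E : ℂ} (h : D E = 0) : ∃ r : ℝ, 0 < r ∧ E = r := by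
  have h1 := energy_sesq E
  rw [h, zero_mul, neg_zero, sub_eq_zero] at h1
  refine ⟨P E / S E, div_pos (P_pos E) (S_pos E), ?_⟩
  have h2 : (S E : ℂ) ≠ 0 := by exact_mod_cast (S_pos E).ne'
  push_cast
  rw [h1, mul_div_cancel_right₀ _ h2]

theorem N_ne {E : ℂ} (h : D E = 0) : N E ≠ 0 := fun h1 => ND_ne E ⟨h1, h⟩

theorem im_energy (E : ℂ) : E.im * S E = (D E * conj (N E)).im := by
  have h1 := congrArg Complex.im (energy_sesq E)
  rw [sub_im, ofReal_im, im_mul_ofReal, neg_im] at h1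
  linarith

theorem re_energy (E : ℂ) : P E = E.re * S E - (D E * conj (N E)).re := by
  have h1 := congrArg Complex.re (energy_sesq E)
  rw [sub_re, ofReal_re, re_mul_ofReal, neg_re] at h1
  linarith

/-- a one dimensional Sobolev inequality -/
theorem sobolev (E : ℂ) {h : ℝ} (hh : 0 < h) : ‖N E‖ ^ 2 ≤ 4 * S E / h ^ 2 + 2 * h * P E := by
  rcases eq_or_ne (N E) 0 with h0 | h0
  · rw [h0, norm_zero, zero_pow two_ne_zero]
    have h1 := S_pos E
    have h2 := P_pos E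
    positivity
  have hn : 0 < ‖N E‖ := norm_pos_iff.2 h0
  set n := ‖N E‖ with hndef
  have cA' := cA E
  have cB' := cB E
  -- fundamental theorem of calculus
  have hF : ∫ t in (0 : ℝ)..h, (((-2 * t / h ^ 2 : ℝ) : ℂ) * A E t
      + ((1 - t ^ 2 / h ^ 2 : ℝ) : ℂ) * B E t) = - N E := by
    have h1 := intervalIntegral.integral_eq_sub_of_hasDerivAt
      (f := fun t : ℝ => ((1 - t ^ 2 / h ^ 2 : ℝ) : ℂ) * A E t)
      (f' := fun t : ℝ => ((-2 * t / h ^ 2 : ℝ) : ℂ) * A E t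
        + ((1 - t ^ 2 / h ^ 2 : ℝ) : ℂ) * B E t) (a := 0) (b := h) ?_ ?_
    · rw [h1]
      have e1 : (1 - h ^ 2 / h ^ 2 : ℝ) = 0 := by
        rw [div_self (by positivity), sub_self]
      rw [e1]
      simp [N]
    · intro t _
      have e1 : HasDerivAt (fun t : ℝ => (1 - t ^ 2 / h ^ 2 : ℝ)) (-2 * t / h ^ 2) t := by
        have := (((hasDerivAt_id t).pow 2).div_const (h ^ 2)).const_sub 1
        refine this.congr_deriv ?_
        simp; ring
      have e2 := e1.ofReal_comp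
      refine (e2.mul (dA E t)).congr_deriv ?_
      ring
    · exact Continuous.intervalIntegrable (by fun_prop) _ _
  have hle : n ≤ ∫ t in (0 : ℝ)..h, (t / h ^ 2 * (n / 2 + ‖A E t‖ ^ 2 / (n / 2))
      + (n / (2 * h) / 2 + ‖B E t‖ ^ 2 / (2 * (n / (2 * h))))) := by
    have hle0 : n = ‖∫ t in (0 : ℝ)..h, (((-2 * t / h ^ 2 : ℝ) : ℂ) * A E t
      + ((1 - t ^ 2 / h ^ 2 : ℝ) : ℂ) * B E t)‖ := by rw [hF, norm_neg]
    refine le_of_eq_of_le hle0 ?_
    refine intervalIntegral.norm_integral_le_of_norm_le hh.le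
      (Eventually.of_forall fun t ht => ?_) (Continuous.intervalIntegrable (by fun_prop) _ _)
    have ht0 : 0 < t := ht.1
    have hth : t ≤ h := ht.2
    refine (norm_add_le _ _).trans (add_le_add ?_ ?_)
    · rw [norm_mul, Complex.norm_real, Real.norm_eq_abs]
      have e1 : |-2 * t / h ^ 2| = t / h ^ 2 * 2 := by
        rw [abs_div, abs_mul, abs_of_pos ht0, abs_of_pos (by positivity : (0 : ℝ) < h ^ 2)]
        norm_num; ring
      rw [e1, mul_assoc]
      refine mul_le_mul_of_nonneg_left ?_ (by positivity)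
      have e2 : ‖A E t‖ ^ 2 / (n / 2) = ‖A E t‖ ^ 2 * 2 / n := by field_simp
      rw [e2, ← sub_nonneg]
      have e3 : n / 2 + ‖A E t‖ ^ 2 * 2 / n - 2 * ‖A E t‖ = (n - 2 * ‖A E t‖) ^ 2 / (2 * n) := by
        field_simp; ring
      rw [e3]
      positivity
    · rw [norm_mul, Complex.norm_real, Real.norm_eq_abs]
      have e1 : |1 - t ^ 2 / h ^ 2| ≤ 1 := by
        have e2 : t ^ 2 / h ^ 2 ≤ 1 := by
          rw [div_le_one (by positivity)]
          exact pow_le_pow_left₀ ht0.le hth 2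
        have e3 : 0 ≤ t ^ 2 / h ^ 2 := by positivity
        rw [abs_le]; constructor <;> linarith
      have e2 : |1 - t ^ 2 / h ^ 2| * ‖B E t‖ ≤ ‖B E t‖ := by
        nlinarith [norm_nonneg (B E t)]
      refine e2.trans ?_
      rw [← sub_nonneg]
      have e3 : n / (2 * h) / 2 + ‖B E t‖ ^ 2 / (2 * (n / (2 * h))) - ‖B E t‖
          = (n / (2 * h) - ‖B E t‖) ^ 2 / (n / h) := by
        field_simp; ring
      rw [e3]
      positivity
  have hS : ∫ t in (0 : ℝ)..h, t * ‖A E t‖ ^ 2 ≤ S E := by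
    rw [intervalIntegral.integral_of_le hh.le, S]
    refine setIntegral_mono_set (int_S E) ?_ (ae_of_all _ Ioc_subset_Ioi_self)
    refine (ae_restrict_iff' measurableSet_Ioi).2 (Eventually.of_forall fun t ht => ?_)
    have : (0 : ℝ) < t := ht
    simp only [Pi.zero_apply]
    positivity
  have hP : ∫ t in (0 : ℝ)..h, ‖B E t‖ ^ 2 ≤ P E := by
    have h1 : ∫ t in (0 : ℝ)..h, ‖B E t‖ ^ 2
        ≤ ∫ t in (0 : ℝ)..h, (‖B E t‖ ^ 2 + t ^ 2 * ‖A E t‖ ^ 2) := by
      refine intervalIntegral.integral_mono_on hh.le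
        (Continuous.intervalIntegrable (by fun_prop) _ _)
        (Continuous.intervalIntegrable (by fun_prop) _ _) fun t _ => ?_
      have : 0 ≤ t ^ 2 * ‖A E t‖ ^ 2 := by positivity
      linarith
    refine h1.trans ?_
    rw [intervalIntegral.integral_of_le hh.le, P]
    refine setIntegral_mono_set (int_P E) ?_ (ae_of_all _ Ioc_subset_Ioi_self)
    refine (ae_restrict_iff' measurableSet_Ioi).2 (Eventually.of_forall fun t _ => ?_)
    simp only [Pi.zero_apply]
    positivity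
  have hval : ∫ t in (0 : ℝ)..h, (t / h ^ 2 * (n / 2 + ‖A E t‖ ^ 2 / (n / 2))
      + (n / (2 * h) / 2 + ‖B E t‖ ^ 2 / (2 * (n / (2 * h)))))
      = n / 4 + 2 / (n * h ^ 2) * (∫ t in (0 : ℝ)..h, t * ‖A E t‖ ^ 2)
        + (n / 4 + h / n * ∫ t in (0 : ℝ)..h, ‖B E t‖ ^ 2) := by
    have e : ∀ t : ℝ, (t / h ^ 2 * (n / 2 + ‖A E t‖ ^ 2 / (n / 2))
      + (n / (2 * h) / 2 + ‖B E t‖ ^ 2 / (2 * (n / (2 * h)))))
      = (n / (2 * h ^ 2) * t + 2 / (n * h ^ 2) * (t * ‖A E t‖ ^ 2))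
        + (n / (4 * h) + h / n * ‖B E t‖ ^ 2) := by
      intro t
      field_simp
      ring
    simp_rw [e]
    rw [intervalIntegral.integral_add, intervalIntegral.integral_add,
      intervalIntegral.integral_add, intervalIntegral.integral_const_mul,
      intervalIntegral.integral_const_mul, intervalIntegral.integral_const_mul,
      intervalIntegral.integral_const, integral_id]
    · simp only [sub_zero, smul_eq_mul]
      field_simp
      ring
    all_goals exact Continuous.intervalIntegrable (by fun_prop) _ _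
  rw [hval] at hle
  have h1 : 2 / (n * h ^ 2) * (∫ t in (0 : ℝ)..h, t * ‖A E t‖ ^ 2) ≤ 2 / (n * h ^ 2) * S E :=
    mul_le_mul_of_nonneg_left hS (by positivity)
  have h2 : h / n * (∫ t in (0 : ℝ)..h, ‖B E t‖ ^ 2) ≤ h / n * P E :=
    mul_le_mul_of_nonneg_left hP (by positivity)
  have h3 : n / 2 ≤ 2 / (n * h ^ 2) * S E + h / n * P E := by linarith
  have h4 := mul_le_mul_of_nonneg_left h3 (show 0 ≤ 2 * n by positivity)
  calc n ^ 2 = 2 * n * (n / 2) := by ring
    _ ≤ _ := h4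
    _ = 4 * S E / h ^ 2 + 2 * h * P E := by field_simp; ring

end Pool.Agent.X125.EQ
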