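import Pool.Agent.X125.EQ.Sol

/-!
# The Wronskian of the two rotated solutions
-/

set_option autoImplicit false

open MeasureTheory Complex Filter Topology Set Metric

namespace Pool.Agent.X125.EQ

theorem integrable_abs_rpow {p : ℝ} (hp : -1 < p) :
    Integrable fun σ : ℝ => |σ| ^ p * Real.exp (-σ ^ 2) := by
  have h1 : IntegrableOn (fun σ : ℝ => |σ| ^ p * Real.exp (-σ ^ 2)) (Ioi 0) := by
    refine (integrableOn_rpow_mul_exp_neg_mul_sq one_pos hp).congr_fun (fun x hx => ?_)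
      measurableSet_Ioi
    rw [mem_Ioi] at hx
    simp only [abs_of_pos hx, neg_mul, one_mul]
  have h2 : IntegrableOn (fun σ : ℝ => |σ| ^ p * Real.exp (-σ ^ 2)) (Iic 0) := by
    rw [← Measure.map_neg_eq_self (volume : Measure ℝ)]
    let m : MeasurableEmbedding fun x : ℝ => -x := (Homeomorph.neg ℝ).measurableEmbedding
    rw [m.integrableOn_map_iff]
    simp_rw [Function.comp_def, abs_neg, neg_sq, neg_preimage, neg_Iic, neg_zero]
    exact Iff.mpr integrableOn_Ici_iff_integrableOn_Ioi h1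
  have h3 := h2.union h1
  rwa [Iic_union_Ioi, integrableOn_univ] at h3

theorem integral_abs_rpow {p : ℝ} (hp : -1 < p) :
    ∫ σ : ℝ, |σ| ^ p * Real.exp (-σ ^ 2) = Real.Gamma ((p + 1) / 2) := by
  have h1 := integral_comp_abs (f := fun σ : ℝ => σ ^ p * Real.exp (-σ ^ 2))
  simp only [sq_abs] at h1
  rw [h1]
  have h2 := integral_rpow_mul_exp_neg_rpow (p := 2) (q := p) two_pos hp
  simp_rw [Real.rpow_two] at h2
  rw [h2]
  ring

theorem norm_F_zero_le {p c : ℝ} (hp1 : p ≤ 1) (hc : 0 < c) (hc1 : c ≤ 1) {σ : ℝ}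
    (hσ : σ ≠ 0) : ‖F c 0 (-p) σ‖ ≤ Real.exp 1 * (Real.exp (-σ ^ 2 / 2) * Real.exp (1 / 2)
      + |σ| ^ p * Real.exp (-σ ^ 2)) := by
  have hs : 0 < ‖sv c σ‖ := norm_pos_iff.2 (sv_ne hc σ)
  have h1 : ‖F c 0 (-p) σ‖ = Real.exp (c ^ 2 - σ ^ 2) * ‖sv c σ‖ ^ p := by
    rw [F, Complex.norm_exp]
    have e1 : (sv c σ ^ 2 - 0 * sv c σ - -(p : ℂ) * log (sv c σ)).re
        = c ^ 2 - σ ^ 2 + p * Real.log ‖sv c σ‖ := by
      rw [zero_mul, sub_zero, neg_mul, sub_neg_eq_add, add_re, sq, mul_re, sv_re, sv_im,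
        re_ofReal_mul, log_re]
      ring
    rw [e1, Real.exp_add, Real.rpow_def_of_pos hs, mul_comm (Real.log _)]
  have hσ0 : 0 < |σ| := abs_pos.2 hσ
  have h2 : |σ| ≤ ‖sv c σ‖ := by
    have := Complex.abs_im_le_norm (sv c σ)
    rwa [sv_im] at this
  have h3 : ‖sv c σ‖ ^ p ≤ (1 + |σ|) + |σ| ^ p := by
    rcases le_total 0 p with h | h
    · have h4 : ‖sv c σ‖ ^ p ≤ (1 + |σ|) ^ p :=
        Real.rpow_le_rpow hs.le ((norm_sv_le hc σ).trans (by linarith)) h
      have h5 : (1 + |σ|) ^ p ≤ (1 + |σ|) ^ (1 : ℝ) :=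
        Real.rpow_le_rpow_of_exponent_le (by linarith) hp1
      rw [Real.rpow_one] at h5
      have h6 : 0 ≤ |σ| ^ p := Real.rpow_nonneg hσ0.le _
      linarith
    · have h4 : ‖sv c σ‖ ^ p ≤ |σ| ^ p := Real.rpow_le_rpow_of_nonpos hσ0 h2 h
      linarith
  rw [h1]
  have h4 : Real.exp (c ^ 2 - σ ^ 2) ≤ Real.exp 1 * Real.exp (-σ ^ 2) := by
    rw [← Real.exp_add, Real.exp_le_exp]
    nlinarith
  have h5 : Real.exp (-σ ^ 2) * (1 + |σ|) ≤ Real.exp (-σ ^ 2 / 2) * Real.exp (1 / 2) := by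
    have h6 : 1 + |σ| ≤ Real.exp |σ| := by linarith [Real.add_one_le_exp |σ|]
    calc _ ≤ Real.exp (-σ ^ 2) * Real.exp |σ| :=
          mul_le_mul_of_nonneg_left h6 (Real.exp_pos _).le
      _ ≤ _ := by
          rw [← Real.exp_add, ← Real.exp_add, Real.exp_le_exp]
          nlinarith [sq_nonneg (|σ| - 1), sq_abs σ]
  calc _ ≤ (Real.exp 1 * Real.exp (-σ ^ 2)) * ((1 + |σ|) + |σ| ^ p) :=
        mul_le_mul h4 h3 (Real.rpow_nonneg hs.le _) (by positivity)
    _ = Real.exp 1 * (Real.exp (-σ ^ 2) * (1 + |σ|) + |σ| ^ p * Real.exp (-σ ^ 2)) := by ring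
    _ ≤ _ := by
        refine mul_le_mul_of_nonneg_left ?_ (Real.exp_pos _).le
        linarith

theorem F_zero_re {p : ℝ} {σ : ℝ} (hσ : σ ≠ 0) :
    (F 0 0 (-p) σ).re = Real.cos (Real.pi * p / 2) * (|σ| ^ p * Real.exp (-σ ^ 2)) := by
  have hσ0 : 0 < |σ| := abs_pos.2 hσ
  have h0 : sv 0 σ = σ * I := by simp [sv]
  have h1 : Real.cos (p * arg (sv 0 σ)) = Real.cos (Real.pi * p / 2) := by
    rw [h0]
    rcases lt_or_gt_of_ne hσ with h | h
    · have : (σ : ℂ) * I = ((-σ : ℝ) : ℂ) * (-I) := by push_cast; ring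
      rw [this, arg_real_mul _ (by linarith), arg_neg_I, ← Real.cos_neg]
      congr 1; ring
    · rw [arg_real_mul _ h, arg_I]
      congr 1; ring
  have h2 : (sv 0 σ ^ 2 - 0 * sv 0 σ - -(p : ℂ) * log (sv 0 σ)).re
      = -σ ^ 2 + Real.log |σ| * p := by
    rw [zero_mul, sub_zero, neg_mul, sub_neg_eq_add, add_re, re_ofReal_mul, log_re, h0]
    have e : ((σ : ℂ) * I) ^ 2 = ((-σ ^ 2 : ℝ) : ℂ) := by
      rw [mul_pow, I_sq]; push_cast; ring
    rw [e, ofReal_re, norm_mul, norm_I, mul_one, Complex.norm_real, Real.norm_eq_abs]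
    ring
  have h3 : (sv 0 σ ^ 2 - 0 * sv 0 σ - -(p : ℂ) * log (sv 0 σ)).im = p * arg (sv 0 σ) := by
    rw [zero_mul, sub_zero, neg_mul, sub_neg_eq_add, add_im, im_ofReal_mul, log_im, h0]
    have e : ((σ : ℂ) * I) ^ 2 = ((-σ ^ 2 : ℝ) : ℂ) := by
      rw [mul_pow, I_sq]; push_cast; ring
    rw [e, ofReal_im, zero_add]
  rw [F, exp_re, h2, h3, h1, Real.exp_add, Real.rpow_def_of_pos hσ0]
  ring

theorem tendsto_F {p σ : ℝ} (hσ : σ ≠ 0) :
    Tendsto (fun n : ℕ => F (1 / ((n : ℝ) + 1)) 0 (-p) σ) atTop (𝓝 (F 0 0 (-p) σ)) := by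
  have h1 : ContinuousAt (fun c : ℝ => F c 0 (-p) σ) 0 := by
    have h2 : ContinuousAt (fun c : ℝ => sv c σ) 0 := by
      have : Continuous fun c : ℝ => sv c σ := by unfold sv; fun_prop
      exact this.continuousAt
    have h3 : ContinuousAt (fun c : ℝ => log (sv c σ)) 0 := by
      refine h2.clog ?_
      right
      simpa using hσ
    unfold F
    fun_prop
  exact h1.tendsto.comp tendsto_one_div_add_atTop_nhds_zero_nat

theorem K_zero_real {p : ℝ} (hp : -1 < p) (hp1 : p ≤ 1) :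
    K 1 0 (-p) = ((Real.cos (Real.pi * p / 2) * Real.Gamma ((p + 1) / 2) : ℝ) : ℂ) := by
  have hreal : K 1 0 (-p) = ((K 1 0 (-p)).re : ℂ) := by
    have := K_conj 0 (-p)
    push_cast at this
    exact ((Complex.conj_eq_iff_re).1 this).symm
  rw [hreal]
  congr 1
  have hn : ∀ n : ℕ, (0 : ℝ) < 1 / ((n : ℝ) + 1) := fun n => by positivity
  have h1 : ∀ n : ℕ, ∫ σ, (F (1 / ((n : ℝ) + 1)) 0 (-p) σ).re = (K 1 0 (-p)).re := by
    intro n
    rw [K_indep one_pos (hn n), K]
    exact integral_re (integrable_F (hn n) 0 (-p))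
  have h0 : ∀ᵐ σ : ℝ, σ ≠ 0 := by
    rw [ae_iff]
    simp
  have h2 : Tendsto (fun n : ℕ => ∫ σ, (F (1 / ((n : ℝ) + 1)) 0 (-p) σ).re) atTop
      (𝓝 (∫ σ, Real.cos (Real.pi * p / 2) * (|σ| ^ p * Real.exp (-σ ^ 2)))) := by
    refine tendsto_integral_of_dominated_convergence
      (fun σ : ℝ => Real.exp 1 * (Real.exp (-σ ^ 2 / 2) * Real.exp (1 / 2)
      + |σ| ^ p * Real.exp (-σ ^ 2))) ?_ ?_ ?_ ?_
    · intro n
      exact (Complex.continuous_re.comp (continuous_F (hn n) 0 (-p))).aestronglyMeasurable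
    · refine ((Integrable.mul_const ?_ _).add (integrable_abs_rpow hp)).const_mul _
      have := integrable_gauss 1
      refine this.congr (Eventually.of_forall fun σ => ?_)
      simp only [one_mul]
      congr 1
      ring
    · intro n
      filter_upwards [h0] with σ hσ
      refine (Complex.abs_re_le_norm _).trans ?_
      refine norm_F_zero_le hp1 (hn n) ?_ hσ
      rw [div_le_one (by positivity)]
      linarith [(Nat.cast_nonneg n : (0 : ℝ) ≤ n)]
    · filter_upwards [h0] with σ hσ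
      rw [← F_zero_re hσ]
      exact (Complex.continuous_re.tendsto _).comp (tendsto_F hσ)
  simp only [h1] at h2
  have h3 := tendsto_nhds_unique tendsto_const_nhds h2
  rw [h3, integral_const_mul, integral_abs_rpow hp]

theorem K_mul_real {p : ℝ} (hp : -1 < p) (hp1 : p < 1) :
    K 1 0 p * K 1 0 (-p) = ((Real.pi * Real.cos (Real.pi * p / 2) : ℝ) : ℂ) := by
  have h1 := K_zero_real hp hp1.le
  have h2 := K_zero_real (p := -p) (by linarith) (by linarith)
  have h2' : K 1 0 (p : ℂ) = K 1 0 (-((-p : ℝ) : ℂ)) := by push_cast; rw [neg_neg]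
  rw [h2', h2, h1, ← ofReal_mul]
  congr 1
  have h3 := Real.Gamma_mul_Gamma_one_sub ((p + 1) / 2)
  have e1 : 1 - (p + 1) / 2 = (-p + 1) / 2 := by ring
  have e2 : Real.sin (Real.pi * ((p + 1) / 2)) = Real.cos (Real.pi * p / 2) := by
    rw [← Real.sin_add_pi_div_two]
    congr 1; ring
  have e3 : Real.cos (Real.pi * -p / 2) = Real.cos (Real.pi * p / 2) := by
    rw [← Real.cos_neg]; congr 1; ring
  rw [e1, e2] at h3
  have hpos : 0 < Real.cos (Real.pi * p / 2) := by
    apply Real.cos_pos_of_mem_Ioo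
    constructor <;> nlinarith [Real.pi_pos]
  rw [e3]
  calc _ = Real.cos (Real.pi * p / 2) ^ 2 * (Real.Gamma ((p + 1) / 2) *
        Real.Gamma ((-p + 1) / 2)) := by ring
    _ = _ := by rw [h3]; field_simp

/-- the product formula at the centre -/
theorem K_mul (ν : ℂ) : K 1 0 ν * K 1 0 (-ν) = Real.pi * cos (Real.pi * ν / 2) := by
  have hf : Differentiable ℂ fun ν : ℂ => K 1 0 ν * K 1 0 (-ν) := by
    have h1 := differentiable_K one_pos (φ := fun _ => (0 : ℂ)) (ψ := fun ν => ν)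
      (differentiable_const _) differentiable_id
    have h2 := differentiable_K one_pos (φ := fun _ => (0 : ℂ)) (ψ := fun ν => -ν)
      (differentiable_const _) differentiable_id.neg
    exact h1.mul h2
  have hg : Differentiable ℂ fun ν : ℂ => (Real.pi : ℂ) * cos (Real.pi * ν / 2) := by
    fun_prop
  have h := AnalyticOnNhd.eq_of_frequently_eq (z₀ := 0)
    (hf.differentiableOn.analyticOnNhd isOpen_univ)
    (hg.differentiableOn.analyticOnNhd isOpen_univ) ?_
  · exact congrFun h ν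
  · have h1 : Tendsto (fun n : ℕ => ((1 / ((n : ℝ) + 2) : ℝ) : ℂ)) atTop (𝓝[≠] 0) := by
      rw [tendsto_nhdsWithin_iff]
      constructor
      · have h2 : Tendsto (fun n : ℕ => (1 / ((n : ℝ) + 2) : ℝ)) atTop (𝓝 0) := by
          have := tendsto_one_div_add_atTop_nhds_zero_nat (𝕜 := ℝ)
          have h3 := this.comp (tendsto_add_atTop_nat 1)
          refine h3.congr fun n => ?_
          simp only [Function.comp]
          push_cast
          ring
        have h3 := (Complex.continuous_ofReal.tendsto 0).comp h2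
        rw [ofReal_zero] at h3
        exact h3
      · refine Eventually.of_forall fun n => ?_
        simp only [mem_compl_iff, mem_singleton_iff, ofReal_eq_zero]
        positivity
    refine h1.frequently (Frequently.of_forall fun n => ?_)
    have h2 := K_mul_real (p := 1 / ((n : ℝ) + 2))
      (by have : (0 : ℝ) < 1 / ((n : ℝ) + 2) := by positivity
          linarith) (by rw [div_lt_one (by positivity)]; linarith [(Nat.cast_nonneg n : (0 : ℝ) ≤ n)])
    rw [h2]
    push_cast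
    rfl

/-- the Wronskian as a function of `t` -/
noncomputable def Wr (E t : ℂ) : ℂ :=
  A E t * (I * B (I * E) (I * t)) - B E t * A (I * E) (I * t)

theorem hasDerivAt_Wr (E t : ℂ) : HasDerivAt (Wr E) 0 t := by
  have h0 : HasDerivAt (fun t : ℂ => I * t) I t := by
    simpa using (hasDerivAt_id t).const_mul I
  have h1 := (hasDerivAt_A (I * E) (I * t)).comp t h0
  have h2 := (hasDerivAt_B (I * E) (I * t)).comp t h0
  have h := ((hasDerivAt_A E t).mul (h2.const_mul I)).sub ((hasDerivAt_B E t).mul h1)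
  refine h.congr_deriv ?_
  have e : (I * t) ^ 2 - I * E * (I * t) = -(t ^ 2 - E * t) := by
    linear_combination (t ^ 2 - E * t) * I_sq
  simp only [Function.comp]
  rw [e]
  linear_combination (-(A E t * (t ^ 2 - E * t) * A (I * E) (I * t))) * I_sq

theorem Wr_const (E s t : ℂ) : Wr E s = Wr E t :=
  is_const_of_deriv_eq_zero (fun t => (hasDerivAt_Wr E t).differentiableAt)
    (fun t => (hasDerivAt_Wr E t).deriv) s t

/-- the quantum Wronskian relation -/
theorem wronskian (E : ℂ) : N E * (I * D (I * E)) - D E * N (I * E)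
    = -(2 * Real.pi * I) * exp (I * (Real.pi * mu E / 2)) := by
  have h1 : N E * (I * D (I * E)) - D E * N (I * E) = Wr E 0 := by
    simp [Wr, N, D]
  rw [h1, Wr_const E 0 (E / 2)]
  have a1 : 2 * (E / 2) - E = 0 := by ring
  have a2 : 2 * (I * (E / 2)) - I * E = 0 := by ring
  have a3 : (E / 2) ^ 2 / 2 - E * (E / 2) / 2 = -(E ^ 2 / 8) := by ring
  have a4 : (I * (E / 2)) ^ 2 / 2 - I * E * (I * (E / 2)) / 2 = E ^ 2 / 8 := by
    linear_combination (-(E ^ 2 / 8)) * I_sq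
  have a5 : mu (I * E) = 1 - mu E := by
    unfold mu
    linear_combination (-(E ^ 2 / 8)) * I_sq
  have a6 : E / 2 - E / 2 = 0 := by ring
  have a7 : I * (E / 2) - I * E / 2 = 0 := by ring
  have a8 : exp (-(E ^ 2 / 8)) * exp (E ^ 2 / 8) = 1 := by
    rw [← Complex.exp_add]; simp
  have b1 := K_mul (mu E)
  have b2 := K_mul (mu E - 1)
  have a9 : -(mu E - 1) = 1 - mu E := by ring
  have a10 : 1 - mu E - 1 = - mu E := by ring
  have a11 : cos (Real.pi * (mu E - 1) / 2) = sin (Real.pi * mu E / 2) := by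
    have : (Real.pi : ℂ) * (mu E - 1) / 2 = Real.pi * mu E / 2 - Real.pi / 2 := by ring
    rw [this, Complex.cos_sub_pi_div_two]
  rw [a9, a11] at b2
  rw [Wr, A, B, A, B, a1, a2, a3, a4, a5, a6, a7, a10]
  have e : exp (I * (Real.pi * mu E / 2)) = cos (Real.pi * mu E / 2)
      + sin (Real.pi * mu E / 2) * I := by
    rw [mul_comm, exp_mul_I]
  rw [e]
  linear_combination (-(2 * I) * exp (-(E ^ 2 / 8)) * exp (E ^ 2 / 8)) * b1
    + (2 * exp (-(E ^ 2 / 8)) * exp (E ^ 2 / 8)) * b2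
    + (-(2 * I) * Real.pi * cos (Real.pi * mu E / 2) + 2 * Real.pi * sin (Real.pi * mu E / 2)) * a8
    + (2 * Real.pi * sin (Real.pi * mu E / 2)) * I_sq

theorem wronskian_ne (E : ℂ) : N E * (I * D (I * E)) - D E * N (I * E) ≠ 0 := by
  rw [wronskian]
  refine mul_ne_zero (neg_ne_zero.2 (mul_ne_zero (mul_ne_zero two_ne_zero ?_) I_ne_zero))
    (exp_ne_zero _)
  exact_mod_cast Real.pi_ne_zero

end Pool.Agent.X125.EQ
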